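import Pool.Agent.H87.FlatRD.Final

/-!
# MP_7346ec_al, FlatTr, module A1: residue division rings and the residue row (helper52)

`exists_fld`: as `FlatRD.exists_residue` (FlatRD/Main.lean): `A ⧸ M` as ring; it is a division ring: `M` is proper and every
`a ∉ M` has a right inverse modulo `M` (`Nice.div`), so every nonzero element of `A ⧸ M` is a unit (right inverses `b` of `a`,
`c` of `b`: `c = a`), `DivisionRing.ofIsUnitOrEqZero`.
`exists_row`: `exists_U` gives `i`, `u ∈ U a i`, `u ∉ M`, `a j * u = a i * c j`. Put `q j := φ (c j) * (φ u)⁻¹`. By `nonvan`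
`a i * t ≠ 0` for `t ∉ M`, so `a i * w = 0` implies `w ∈ M` (`zeroLoc`). `a i * (u - c i) = 0` gives `q i = 1`.
For `x ∈ N a`: `commonOre`: `x j * s = u * y j`, `s ∉ M`, so `a i * ∑ c j * y j = 0`, `∑ φ (c j) * φ (y j) = 0`, and
`φ (y j) = (φ u)⁻¹ * φ (x j) * φ s`.
-/

set_option autoImplicit false

namespace Pool.Agent.FlatTr

open Pool.Agent.FlatRD

universe v

variable {A : Type v} [Ring A]

theorem exists_fld (hD : RDist A) {M : Submodule Aᵐᵒᵖ A} (hM : IsCoatom M) :
    ∃ (k : Type v) (_ : DivisionRing k) (φ : A →+* k),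
      (∀ x, φ x = 0 ↔ x ∈ M) ∧ Function.Surjective φ := by
  have hN : Nice M := nice hD hM
  let I : Ideal A :=
    { carrier := M
      add_mem' := fun ha hb => M.add_mem ha hb
      zero_mem' := M.zero_mem
      smul_mem' := fun c x hx => hN.left c x hx }
  have hI2 : I.IsTwoSided := ⟨fun b ha => mulR (I := M) ha b⟩
  have hmk : ∀ x, Ideal.Quotient.mk I x = 0 ↔ x ∈ M := fun x => Ideal.Quotient.eq_zero_iff_mem
  have hsurj : Function.Surjective (Ideal.Quotient.mk I) := Ideal.Quotient.mk_surjective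
  have hnt : Nontrivial (A ⧸ I) := by
    refine ⟨⟨Ideal.Quotient.mk I 1, 0, ?_⟩⟩
    intro h
    exact hN.one ((hmk 1).1 h)
  have hinv : ∀ x : A, x ∉ M → ∃ y : A, y ∉ M ∧
      Ideal.Quotient.mk I x * Ideal.Quotient.mk I y = 1 := by
    intro x hx
    obtain ⟨y, hy⟩ := hN.div x hx
    have e1 : Ideal.Quotient.mk I x * Ideal.Quotient.mk I y = 1 := by
      have h := (hmk _).2 hy
      rwa [map_sub, map_mul, map_one, sub_eq_zero] at h
    refine ⟨y, ?_, e1⟩
    intro h'
    rw [(hmk _).2 h', mul_zero] at e1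
    exact zero_ne_one e1
  have hunit : ∀ q : A ⧸ I, IsUnit q ∨ q = 0 := by
    intro q
    obtain ⟨x, rfl⟩ := hsurj q
    by_cases hx : x ∈ M
    · right; exact (hmk x).2 hx
    · left
      obtain ⟨y, hy, e1⟩ := hinv x hx
      obtain ⟨z, hz, e2⟩ := hinv y hy
      have e3 : Ideal.Quotient.mk I z = Ideal.Quotient.mk I x := by
        calc Ideal.Quotient.mk I z
            = Ideal.Quotient.mk I x * Ideal.Quotient.mk I y * Ideal.Quotient.mk I z := by
              rw [e1, one_mul]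
          _ = Ideal.Quotient.mk I x := by rw [mul_assoc, e2, mul_one]
      exact ⟨⟨Ideal.Quotient.mk I x, Ideal.Quotient.mk I y, e1, by rw [← e3]; exact e2⟩, rfl⟩
  exact ⟨A ⧸ I, DivisionRing.ofIsUnitOrEqZero hunit, Ideal.Quotient.mk I, hmk, hsurj⟩

theorem exists_row (hR : IsReduced A) (hD : RDist A) {n : ℕ} (a : Fin (n + 1) → A)
    {M : Submodule Aᵐᵒᵖ A} (hM : IsCoatom M) (hK : K a ≤ M) {k : Type v} [DivisionRing k]
    (φ : A →+* k) (hφ : ∀ x, φ x = 0 ↔ x ∈ M) :
    ∃ (q : Fin (n + 1) → k) (i : Fin (n + 1)) (u : A) (c : Fin (n + 1) → A),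
      u ∉ M ∧ (∀ j, a j * u = a i * c j) ∧ (∀ j, q j * φ u = φ (c j)) ∧ q i = 1 ∧
      (∀ t, t ∉ M → a i * t ≠ 0) ∧ ∀ x, N a x → ∑ j, q j * φ (x j) = 0 := by
  have hN : Nice M := nice hD hM
  obtain ⟨i, u, hu, huM⟩ := exists_U hD a hN
  have hnv : ∀ t, t ∉ M → a i * t ≠ 0 := nonvan hD a hN hK hu huM
  choose c hc using hu
  have hφu : φ u ≠ 0 := fun h => huM ((hφ u).1 h)
  have hz : ∀ w, a i * w = 0 → φ w = 0 := by
    intro w hw
    obtain ⟨t, ht, h⟩ := zeroLoc hN hR hD hw hnv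
    have h1 : φ w * φ t = 0 := by rw [← map_mul, h, map_zero]
    rcases mul_eq_zero.1 h1 with h2 | h2
    · exact h2
    · exact absurd ((hφ t).1 h2) ht
  refine ⟨fun j => φ (c j) * (φ u)⁻¹, i, u, c, huM, hc, ?_, ?_, hnv, ?_⟩
  · intro j
    rw [mul_assoc, inv_mul_cancel₀ hφu, mul_one]
  · have h1 : φ (u - c i) = 0 := by
      apply hz
      rw [mul_sub, hc i, sub_self]
    rw [map_sub, sub_eq_zero] at h1
    change φ (c i) * (φ u)⁻¹ = 1
    rw [← h1, mul_inv_cancel₀ hφu]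
  · intro x hx
    obtain ⟨s, hs, y, hy⟩ := commonOre hN hD x (fun _ => u) (fun _ => huM)
    have hφs : φ s ≠ 0 := fun h => hs ((hφ s).1 h)
    have h1 : a i * ∑ j, c j * y j = 0 := by
      have e1 : (∑ j, a j * x j) * s = 0 := by
        have : ∑ j, a j * x j = 0 := hx
        rw [this, zero_mul]
      rw [Finset.sum_mul] at e1
      rw [Finset.mul_sum, ← e1]
      refine Finset.sum_congr rfl fun j _ => ?_
      rw [← mul_assoc, ← hc, mul_assoc, ← hy, mul_assoc]
    have h2 : ∑ j, φ (c j) * φ (y j) = 0 := by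
      have h3 := hz _ h1
      rw [map_sum] at h3
      rw [← h3]
      refine Finset.sum_congr rfl fun j _ => ?_
      rw [map_mul]
    have h4 : (∑ j, φ (c j) * (φ u)⁻¹ * φ (x j)) * φ s = 0 := by
      rw [Finset.sum_mul, ← h2]
      refine Finset.sum_congr rfl fun j _ => ?_
      have e2 : φ (x j) * φ s = φ u * φ (y j) := by rw [← map_mul, hy j, map_mul]
      rw [mul_assoc, e2, mul_assoc, ← mul_assoc (φ u)⁻¹, inv_mul_cancel₀ hφu, one_mul]
    rcases mul_eq_zero.1 h4 with h5 | h5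
    · exact h5
    · exact absurd h5 hφs

end Pool.Agent.FlatTr
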