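import Mathlib

/-!
# MP_7346ec_al, FlatTr, module A2: the computation in the residue division ring (helper52)

`IsComm x`: `x` is a finite sum of additive commutators. In `res_zero`: put `μ = ∑ p j * v j` (note `p i0 = 0`),
`z j = ∑ l, p l * Z l j`, `θ = ∑ j, z j * c j`, `ω = ∑ m, w m * c m`. `(1)` says `∑ j, c j * z j + t = 1`, `(Z1)` says
`lam * z j = q i0 * w j`, hence `lam * θ = q i0 * ω`; `(t1)`: `q i0 * t = lam * ∑ l, p l * ζ l`; `∑ q j * v j = 0` says
`lam * μ + q i0 * v i0 = 0`. As `∑_{j ≠ i0} p j * v j = μ` the equation for `l = i0` is `ω * μ = t * v i0` (A) and for `l ≠ i0`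
`v l = (c l - ∑ m, Z l m * c m) * μ + ζ l * v i0` (B). Apply `p` to (B): `μ = (1 - θ) * μ + (∑ p l * ζ l) * v i0`, so
`θ * μ = (∑ l, p l * ζ l) * v i0` (C). It is enough to show `μ = 0` and `v i0 = 0` (then `v = 0` by (B)).
`lam` and `q i0` are not both zero (`hq`).
Case `q i0 = 0`: `lam ≠ 0`, `z = 0`, `t = 1`, `μ = 0`, by (A) `v i0 = 0`.
Case `lam = 0` (`q i0 ≠ 0`): `t = 0`, `v i0 = 0`, `∑ c j * z j = 1`, by (C) `θ * μ = 0`. If `μ ≠ 0` then `θ = 0`:
`1 = ∑ (c j * z j - z j * c j)` is a sum of commutators; `Z = 0` is impossible; if only the column `l` of `Z` is nonzero then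
`c l * z l = 1`, so `θ = z l * c l = 1`.
Case both nonzero: `g = lam⁻¹ * q i0`, `μ = - g * v i0`. If `μ ≠ 0`: (A) gives `t = - ω * g`, `ω = g⁻¹ * θ`, so `t = - g⁻¹ * θ * g`
and `1 = ∑ c j * z j - g⁻¹ * θ * g = ∑ (c j * z j - z j * c j) + (θ * g * g⁻¹ - g⁻¹ * (θ * g))`: sum of commutators. If `Z = 0`:
`θ = 0`, `t = 0`, `1 = 0`. If `t = 0` and only the column `l` is nonzero: `θ = 1` as before, but `t = 0` gives `θ = 0`.
-/

set_option autoImplicit false

namespace Pool.Agent.FlatTr

universe v

/-- finite sums of additive commutators -/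
def IsComm {R : Type v} [Ring R] (x : R) : Prop :=
  ∃ (m : ℕ) (α β : Fin m → R), x = ∑ i, (α i * β i - β i * α i)

theorem IsComm.add {R : Type v} [Ring R] {x y : R} (hx : IsComm x) (hy : IsComm y) :
    IsComm (x + y) := by
  obtain ⟨m, α, β, rfl⟩ := hx
  obtain ⟨m', α', β', rfl⟩ := hy
  refine ⟨m + m', Fin.append α α', Fin.append β β', ?_⟩
  rw [Fin.sum_univ_add]
  simp only [Fin.append_left, Fin.append_right]

theorem IsComm.single {R : Type v} [Ring R] (x y : R) : IsComm (x * y - y * x) :=
  ⟨1, fun _ => x, fun _ => y, by simp⟩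

theorem IsComm.sum {R : Type v} [Ring R] {m : ℕ} (α β : Fin m → R) :
    IsComm (∑ i, (α i * β i - β i * α i)) := ⟨m, α, β, rfl⟩

theorem res_zero {k : Type v} [DivisionRing k] {n : ℕ} (i0 : Fin (n + 1)) (q p c : Fin (n + 1) → k)
    (lam : k) (hq : ∃ i, q i ≠ 0) (hp0 : p i0 = 0) (hpc : ∑ j, p j * c j = 1)
    (hlam : ∀ j, j ≠ i0 → q j = lam * p j) (Z : Fin (n + 1) → Fin (n + 1) → k)
    (w ζ : Fin (n + 1) → k) (t : k)
    (hZ : ∀ j, lam * ∑ l, p l * Z l j = q i0 * w j)
    (ht : q i0 * t = lam * ∑ l, p l * ζ l)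
    (h1 : ∑ j, c j * (∑ l, p l * Z l j) + t = 1)
    (hcond : (¬ IsComm (1 : k)) ∨ (∀ i j, Z i j = 0) ∨ (t = 0 ∧ ∃ l, ∀ j, j ≠ l → ∀ i, Z i j = 0))
    (v : Fin (n + 1) → k) (hv : ∑ j, q j * v j = 0)
    (hv0 : ∑ j, (if j = i0 then 0 else (∑ m, w m * (c m * p j)) * v j) + (1 - t) * v i0 = v i0)
    (hvl : ∀ l, l ≠ i0 → ∑ j, (if j = i0 then 0 else (c l * p j - ∑ m, Z l m * (c m * p j)) * v j) +
      ζ l * v i0 = v l) :
    v = 0 := by
  obtain ⟨z, hz⟩ : ∃ z : Fin (n + 1) → k, ∀ j, z j = ∑ l, p l * Z l j := ⟨_, fun _ => rfl⟩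
  obtain ⟨θ, hθ⟩ : ∃ θ : k, θ = ∑ j, z j * c j := ⟨_, rfl⟩
  obtain ⟨ω, hω⟩ : ∃ ω : k, ω = ∑ m, w m * c m := ⟨_, rfl⟩
  obtain ⟨μ, hμ⟩ : ∃ μ : k, μ = ∑ j, p j * v j := ⟨_, rfl⟩
  obtain ⟨P, hP⟩ : ∃ P : k, P = ∑ l, p l * ζ l := ⟨_, rfl⟩
  simp only [← hz] at hZ h1
  rw [← hP] at ht
  -- the equation (A)
  have hA : ω * μ = t * v i0 := by
    have h2 : ∑ j, (if j = i0 then 0 else (∑ m, w m * (c m * p j)) * v j) = ω * μ := by
      rw [hμ, Finset.mul_sum]
      refine Finset.sum_congr rfl fun j _ => ?_
      by_cases hj : j = i0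
      · rw [if_pos hj, hj, hp0, zero_mul, mul_zero]
      · have h3 : ∑ m, w m * (c m * p j) = (∑ m, w m * c m) * p j := by
          rw [Finset.sum_mul]
          exact Finset.sum_congr rfl fun m _ => (mul_assoc _ _ _).symm
        rw [if_neg hj, hω, h3, mul_assoc]
    rw [h2, sub_mul, one_mul] at hv0
    have h3 : ω * μ = v i0 - (v i0 - t * v i0) := eq_sub_of_add_eq hv0
    rw [h3, sub_sub_cancel]
  -- the equations (B)
  have hB : ∀ l, l ≠ i0 → v l = (c l - ∑ m, Z l m * c m) * μ + ζ l * v i0 := by
    intro l hl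
    rw [← hvl l hl]
    congr 1
    rw [hμ, Finset.mul_sum]
    refine Finset.sum_congr rfl fun j _ => ?_
    by_cases hj : j = i0
    · rw [if_pos hj, hj, hp0, zero_mul, mul_zero]
    · have h3 : ∑ m, Z l m * (c m * p j) = (∑ m, Z l m * c m) * p j := by
        rw [Finset.sum_mul]
        exact Finset.sum_congr rfl fun m _ => (mul_assoc _ _ _).symm
      rw [if_neg hj, h3, ← sub_mul, mul_assoc]
  -- the equation (C)
  have hC : θ * μ = P * v i0 := by
    have h2 : μ = (1 - θ) * μ + P * v i0 := by
      have h3 : μ = ∑ l, p l * ((c l - ∑ m, Z l m * c m) * μ + ζ l * v i0) := by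
        refine hμ.trans (Finset.sum_congr rfl fun l _ => ?_)
        by_cases hl : l = i0
        · rw [hl, hp0, zero_mul, zero_mul]
        · rw [← hB l hl]
      have h4 : ∑ l, p l * ((c l - ∑ m, Z l m * c m) * μ + ζ l * v i0) =
          (∑ l, p l * c l) * μ - (∑ l, p l * ∑ m, Z l m * c m) * μ + (∑ l, p l * ζ l) * v i0 := by
        rw [Finset.sum_mul, Finset.sum_mul, Finset.sum_mul, ← Finset.sum_sub_distrib,
          ← Finset.sum_add_distrib]
        refine Finset.sum_congr rfl fun l _ => ?_
        rw [mul_add, sub_mul, mul_sub, mul_assoc, mul_assoc, mul_assoc]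
      have h5 : ∑ l, p l * ∑ m, Z l m * c m = θ := by
        rw [hθ]
        simp only [hz, Finset.mul_sum, Finset.sum_mul]
        rw [Finset.sum_comm]
        exact Finset.sum_congr rfl fun m _ => Finset.sum_congr rfl fun l _ => (mul_assoc _ _ _).symm
      rw [h4, hpc, h5, ← hP, one_mul] at h3
      rw [sub_mul, one_mul]
      exact h3
    rw [sub_mul, one_mul] at h2
    have h3 : μ - θ * μ + P * v i0 - μ = 0 := by rw [← h2, sub_self]
    have h4 : μ - θ * μ + P * v i0 - μ = P * v i0 - θ * μ := by abel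
    rw [h4] at h3
    exact (sub_eq_zero.1 h3).symm
  have hlθ : lam * θ = q i0 * ω := by
    rw [hθ, hω, Finset.mul_sum, Finset.mul_sum]
    refine Finset.sum_congr rfl fun j _ => ?_
    rw [← mul_assoc, hZ j, mul_assoc]
  have hD : lam * μ + q i0 * v i0 = 0 := by
    rw [← hv, hμ, Finset.mul_sum, ← Finset.add_sum_erase _ _ (Finset.mem_univ i0),
      ← Finset.add_sum_erase (Finset.univ) (fun j => q j * v j) (Finset.mem_univ i0), hp0, zero_mul,
      mul_zero, zero_add, add_comm]
    congr 1
    refine Finset.sum_congr rfl fun j hj => ?_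
    rw [hlam j (Finset.ne_of_mem_erase hj), mul_assoc]
  -- it is enough to show that `μ` and `v i0` vanish
  have key : μ = 0 ∧ v i0 = 0 := by
    by_cases hq0 : q i0 = 0
    · have hl : lam ≠ 0 := by
        rintro rfl
        obtain ⟨i, hi⟩ := hq
        by_cases h : i = i0
        · exact hi (h ▸ hq0)
        · exact hi (by rw [hlam i h, zero_mul])
      have hz0 : ∀ j, z j = 0 := by
        intro j
        have h2 := hZ j
        rw [hq0, zero_mul] at h2
        exact (mul_eq_zero.1 h2).resolve_left hl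
      have ht1 : t = 1 := by
        rw [← h1]
        simp only [hz0, mul_zero, Finset.sum_const_zero, zero_add]
      have hμ0 : μ = 0 := by
        rw [hq0, zero_mul, add_zero] at hD
        exact (mul_eq_zero.1 hD).resolve_left hl
      refine ⟨hμ0, ?_⟩
      rw [hμ0, mul_zero, ht1, one_mul] at hA
      exact hA.symm
    · -- the values of `z` if only one column is nonzero
      have hcol : ∀ l, (∀ j, j ≠ l → ∀ i, Z i j = 0) → t = 0 → θ = 1 := by
        intro l hZl ht0
        have hz0 : ∀ j, j ≠ l → z j = 0 := by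
          intro j hj
          rw [hz]
          exact Finset.sum_eq_zero fun i _ => by rw [hZl j hj i, mul_zero]
        have h2 : c l * z l = 1 := by
          rw [ht0, add_zero] at h1
          rw [← h1]
          symm
          apply Finset.sum_eq_single l
          · intro j _ hj
            rw [hz0 j hj, mul_zero]
          · intro h
            exact absurd (Finset.mem_univ l) h
        have h3 : θ = z l * c l := by
          rw [hθ]
          apply Finset.sum_eq_single l
          · intro j _ hj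
            rw [hz0 j hj, zero_mul]
          · intro h
            exact absurd (Finset.mem_univ l) h
        rw [h3]
        exact mul_eq_one_comm.1 h2
      have hcomm : ∑ j, c j * z j - θ = ∑ j, (c j * z j - z j * c j) := by
        rw [hθ, Finset.sum_sub_distrib]
      by_cases hl : lam = 0
      · have ht0 : t = 0 := by
          rw [hl, zero_mul] at ht
          exact (mul_eq_zero.1 ht).resolve_left hq0
        have hv00 : v i0 = 0 := by
          rw [hl, zero_mul, zero_add] at hD
          exact (mul_eq_zero.1 hD).resolve_left hq0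
        refine ⟨?_, hv00⟩
        by_contra hμ0
        have hθ0 : θ = 0 := by
          rw [hv00, mul_zero] at hC
          exact (mul_eq_zero.1 hC).resolve_right hμ0
        rw [ht0, add_zero] at h1
        rcases hcond with h | h | ⟨-, l, h⟩
        · apply h
          rw [h1, hθ0, sub_zero] at hcomm
          rw [hcomm]
          exact IsComm.sum _ _
        · have hz0 : ∀ j, z j = 0 := by
            intro j
            rw [hz]
            exact Finset.sum_eq_zero fun i _ => by rw [h i j, mul_zero]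
          simp only [hz0, mul_zero, Finset.sum_const_zero] at h1
          exact zero_ne_one h1
        · have h2 := hcol l h ht0
          rw [hθ0] at h2
          exact zero_ne_one h2
      · -- both are nonzero
        obtain ⟨g, hg⟩ : ∃ g : k, g = lam⁻¹ * q i0 := ⟨_, rfl⟩
        have hg0 : g ≠ 0 := by
          rw [hg]
          exact mul_ne_zero (inv_ne_zero hl) hq0
        have hμg : μ = -(g * v i0) := by
          have h2 : lam * μ = -(q i0 * v i0) := eq_neg_of_add_eq_zero_left hD
          rw [hg, mul_assoc, ← mul_neg, ← h2, ← mul_assoc, inv_mul_cancel₀ hl, one_mul]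
        by_cases hv00 : v i0 = 0
        · exact ⟨by rw [hμg, hv00, mul_zero, neg_zero], hv00⟩
        · exfalso
          have hωg : ω = g⁻¹ * θ := by
            rw [hg, mul_inv_rev, inv_inv, mul_assoc, hlθ, ← mul_assoc, inv_mul_cancel₀ hq0, one_mul]
          have htg : t = -(g⁻¹ * θ * g) := by
            rw [hμg, mul_neg, ← mul_assoc, ← neg_mul] at hA
            have h2 := mul_right_cancel₀ hv00 hA
            rw [← h2, hωg]
          rcases hcond with h | h | ⟨ht0, l, h⟩
          · apply h
            have h2 : (1 : k) = ∑ j, (c j * z j - z j * c j) + (θ * g * g⁻¹ - g⁻¹ * (θ * g)) := by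
              rw [← hcomm, mul_assoc θ g g⁻¹, mul_inv_cancel₀ hg0, mul_one, ← mul_assoc]
              rw [htg] at h1
              rw [← h1]
              abel
            rw [h2]
            exact (IsComm.sum _ _).add (IsComm.single _ _)
          · have hz0 : ∀ j, z j = 0 := by
              intro j
              rw [hz]
              exact Finset.sum_eq_zero fun i _ => by rw [h i j, mul_zero]
            have hθ0 : θ = 0 := by
              rw [hθ]
              simp only [hz0, zero_mul, Finset.sum_const_zero]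
            rw [hθ0, mul_zero, zero_mul, neg_zero] at htg
            rw [htg, add_zero] at h1
            simp only [hz0, mul_zero, Finset.sum_const_zero] at h1
            exact zero_ne_one h1
          · have h2 := hcol l h ht0
            rw [h2, mul_one, inv_mul_cancel₀ hg0, ht0] at htg
            exact one_ne_zero (neg_eq_zero.1 htg.symm)
  obtain ⟨hμ0, hv00⟩ := key
  funext l
  by_cases hl : l = i0
  · rw [hl, hv00]
    rfl
  · rw [hB l hl, hμ0, hv00, mul_zero, mul_zero, add_zero]
    rfl

end Pool.Agent.FlatTr
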