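import Pool.Agent.FlatTr.A1

/-!
# MP_7346ec_al, FlatTr, module A3: from residues to the ring (helper52)

Adapt FlatRD/Final.lean (`loc_surj`, `loc_inj`, `glob_surj`, `glob_inj`, `exists_F`, there for `K' = K a` and for a matrix
`C` which kills `N a` modulo `M`). `E x l := x l - ∑ j, C l j * x j`; `a E = 0` by `hC`, so `E x ∈ N a` for all `x`.
Local part at a coatom `M ≥ K'` (so `M ≥ K a`): local basis `b j` of `N a` (`FlatRD.basis`, which only needs `hD hMc hK`),
`B l j := E (b j) (i.succAbove l)`. The residue matrix `φ (B l j)` is injective on `kⁿ` (right vector spaces): if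
`∑ j, φ (B l j) * s j = 0` for all `l` then `v := ∑ j, φ (b j ·) * s j` has `∑ q j * v j = 0` and `v l = ∑ φ (C l j) * v j` for
all `l ≠ i`, hence also for `l = i` (as `∑ q l * (v l - ∑ φ (C l j) v j) = 0` because `E (b j) ∈ N a`, and `q i ≠ 0`: note
that `q` vanishes on the residues of `N a`, `q ≠ 0`, so `q i ≠ 0`), so `v = 0` by `hres`, so `s = 0` (`b j` has the entry `u`
at `i.succAbove j`). So there are matrices `G`, `G'` over `A` with `B G ≡ 1`, `G' B ≡ 1` modulo `M`
(`k ≃ A ⧸ M`; an injective endomorphism of a finite dimensional right vector space is bijective). Now `elim_surj` for `B G`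
and `elim_inj` for `G' B` give `loc_surj`, `loc_inj` as in FlatRD/Final.lean (`hloc` replaces `K_loc`).
`local_global`: as `exists_F`: `f k ∈ N a` with `E (f k) - E (e k) ∈ K'`, `F = (f k)`, for `x ∈ N a`: `w = F x - x ∈ N a`,
`E w ∈ K'` so `w ∈ K'`. Take `C' = 1 - F`.
-/

set_option autoImplicit false

namespace Pool.Agent.FlatTr

open Pool.Agent.FlatRD

universe v

variable {A : Type v} [Ring A]

/-- the matrix `1 - C` acting on columns -/
def A3_E {n : ℕ} (C : Fin (n + 1) → Fin (n + 1) → A) (x : Fin (n + 1) → A) (l : Fin (n + 1)) : A :=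
  x l - ∑ j, C l j * x j

lemma A3_E_N {n : ℕ} {a : Fin (n + 1) → A} {C : Fin (n + 1) → Fin (n + 1) → A}
    (hC : ∀ j, ∑ l, a l * C l j = a j) (x : Fin (n + 1) → A) : N a (A3_E C x) := by
  unfold N A3_E
  simp only [mul_sub, Finset.sum_sub_distrib, Finset.mul_sum]
  rw [Finset.sum_comm, sub_eq_zero]
  refine Finset.sum_congr rfl fun j _ => ?_
  calc a j * x j = (∑ l, a l * C l j) * x j := by rw [hC]
    _ = ∑ l, a l * (C l j * x j) := by
      rw [Finset.sum_mul]
      exact Finset.sum_congr rfl fun l _ => by rw [mul_assoc]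

lemma A3_E_mul {n : ℕ} (C : Fin (n + 1) → Fin (n + 1) → A) (x : Fin (n + 1) → A) (t : A) (l : Fin (n + 1)) :
    A3_E C (fun j => x j * t) l = A3_E C x l * t := by
  unfold A3_E
  rw [sub_mul, Finset.sum_mul]
  congr 1
  exact Finset.sum_congr rfl fun j _ => by rw [mul_assoc]

lemma A3_E_sub {n : ℕ} (C : Fin (n + 1) → Fin (n + 1) → A) (x z : Fin (n + 1) → A) (l : Fin (n + 1)) :
    A3_E C (fun j => x j - z j) l = A3_E C x l - A3_E C z l := by
  unfold A3_E
  simp only [mul_sub, Finset.sum_sub_distrib]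
  abel

lemma A3_E_sum {n : ℕ} (C : Fin (n + 1) → Fin (n + 1) → A) {ι : Type} (s : Finset ι)
    (x : ι → Fin (n + 1) → A) (l : Fin (n + 1)) :
    A3_E C (fun j => ∑ k ∈ s, x k j) l = ∑ k ∈ s, A3_E C (x k) l := by
  unfold A3_E
  simp only [Finset.mul_sum, Finset.sum_sub_distrib]
  rw [Finset.sum_comm]

/-- an injective matrix over a division ring has a two-sided inverse -/
lemma A3_inv {k : Type v} [DivisionRing k] {n : ℕ} (Φ : Fin n → Fin n → k)
    (h : ∀ s : Fin n → k, (∀ l, ∑ j, Φ l j * s j = 0) → s = 0) :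
    ∃ Γ : Fin n → Fin n → k, (∀ l m, ∑ j, Φ l j * Γ j m = if l = m then 1 else 0) ∧
      ∀ j m, ∑ l, Γ j l * Φ l m = if j = m then 1 else 0 := by
  classical
  let T : (Fin n → k) →ₗ[kᵐᵒᵖ] (Fin n → k) :=
    { toFun := fun s l => ∑ j, Φ l j * s j
      map_add' := by
        intro s s'
        funext l
        simp only [Pi.add_apply, mul_add, Finset.sum_add_distrib]
      map_smul' := by
        intro c s
        funext l
        simp only [Pi.smul_apply, MulOpposite.smul_eq_mul_unop, RingHom.id_apply, Finset.sum_mul]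
        exact Finset.sum_congr rfl fun j _ => by rw [mul_assoc] }
  have hT : ∀ s l, T s l = ∑ j, Φ l j * s j := fun s l => rfl
  have hfin : Module.Finite kᵐᵒᵖ k := by
    refine ⟨⟨{1}, ?_⟩⟩
    rw [Finset.coe_singleton, Submodule.eq_top_iff']
    intro x
    rw [Submodule.mem_span_singleton]
    exact ⟨MulOpposite.op x, by simp⟩
  have hinj : Function.Injective T := by
    rw [injective_iff_map_eq_zero]
    intro s hs
    apply h
    intro l
    rw [← hT, hs]
    rfl
  have hsurj : Function.Surjective T := LinearMap.injective_iff_surjective.1 hinj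
  have h1 : ∀ m : Fin n, ∃ γ : Fin n → k, T γ = fun l => if l = m then 1 else 0 := fun m => hsurj _
  choose γ hγ using h1
  have h2 : ∀ l m, ∑ j, Φ l j * γ m j = if l = m then 1 else 0 := by
    intro l m
    rw [← hT, hγ]
  refine ⟨fun j m => γ m j, h2, ?_⟩
  intro j m
  have h3 : (fun j => ∑ l, γ l j * Φ l m - if j = m then 1 else 0) = 0 := by
    apply h
    intro l
    simp only [mul_sub, Finset.sum_sub_distrib, Finset.mul_sum]
    rw [Finset.sum_comm]
    have e1 : ∀ l', ∑ j, Φ l j * (γ l' j * Φ l' m) = (if l = l' then 1 else 0) * Φ l' m := by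
      intro l'
      rw [← h2 l l', Finset.sum_mul]
      exact Finset.sum_congr rfl fun j _ => by rw [mul_assoc]
    simp only [e1]
    simp
  have h4 := congrFun h3 j
  simp only [Pi.zero_apply, sub_eq_zero] at h4
  exact h4

section loc

variable {n : ℕ} {a : Fin (n + 1) → A} {K' : Submodule Aᵐᵒᵖ A} {C : Fin (n + 1) → Fin (n + 1) → A}
  {M : Submodule Aᵐᵒᵖ A}

/-- the local basis with the matrices which invert `1 - C` modulo `M` -/
lemma A3_basis (hR : IsReduced A) (hD : RDist A) (hK : K a ≤ K') (hC : ∀ j, ∑ l, a l * C l j = a j)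
    (hres : ∀ M : Submodule Aᵐᵒᵖ A, IsCoatom M → K' ≤ M → ∀ (k : Type v) [DivisionRing k]
      (φ : A →+* k), (∀ x, φ x = 0 ↔ x ∈ M) → Function.Surjective φ → ∀ q : Fin (n + 1) → k,
      (∃ i, q i = 1) → (∀ x, N a x → ∑ j, q j * φ (x j) = 0) →
      ∀ v : Fin (n + 1) → k, ∑ j, q j * v j = 0 → (∀ l, ∑ j, φ (C l j) * v j = v l) → v = 0)
    (hMc : IsCoatom M) (hKM : K' ≤ M) :
    ∃ (i : Fin (n + 1)) (u : A) (b : Fin n → Fin (n + 1) → A) (G : Fin n → Fin n → A),
      u ∉ M ∧ (∀ t, t ∉ M → a i * t ≠ 0) ∧ (∀ j, N a (b j)) ∧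
      (∀ j l, b j (i.succAbove l) = if l = j then u else 0) ∧
      (∀ l m, l ≠ m → ∑ j, A3_E C (b j) (i.succAbove l) * G j m ∈ M) ∧
      (∀ l, ∑ j, A3_E C (b j) (i.succAbove l) * G j l ∉ M) ∧
      (∀ j m, j ≠ m → ∑ l, G j l * A3_E C (b m) (i.succAbove l) ∈ M) ∧
      (∀ j, ∑ l, G j l * A3_E C (b j) (i.succAbove l) ∉ M) := by
  classical
  have hM := nice hD hMc
  obtain ⟨k, hk, φ, hφ, hsur⟩ := exists_fld hD hMc
  obtain ⟨q, i, u, c, hu, hac, hqu, hqi, hnv, hqN⟩ := exists_row hR hD a hMc (hK.trans hKM) φ hφ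
  set b : Fin n → Fin (n + 1) → A := fun j => i.insertNth (-(c (i.succAbove j)))
    (fun l => if l = j then u else 0) with hbdef
  have hb : ∀ j, N a (b j) := by
    intro j
    unfold N
    rw [Fin.sum_univ_succAbove _ i]
    simp only [hbdef, Fin.insertNth_apply_same, Fin.insertNth_apply_succAbove, mul_neg, mul_ite,
      mul_zero, Finset.sum_ite_eq', Finset.mem_univ, if_true]
    rw [hac]
    abel
  have hbu : ∀ j l, b j (i.succAbove l) = if l = j then u else 0 := by
    intro j l
    simp [hbdef]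
  have hφu : φ u ≠ 0 := fun h => hu ((hφ u).1 h)
  obtain ⟨Γ, hΓ1, hΓ2⟩ := A3_inv (fun l j => φ (A3_E C (b j) (i.succAbove l))) (by
    intro s hs
    set v : Fin (n + 1) → k := fun m => ∑ j, φ (b j m) * s j with hv
    have hE : ∀ l, ∑ j, φ (A3_E C (b j) l) * s j = v l - ∑ m, φ (C l m) * v m := by
      intro l
      have e1 : ∀ j, φ (A3_E C (b j) l) * s j = φ (b j l) * s j - ∑ m, φ (C l m) * (φ (b j m) * s j) := by
        intro j
        unfold A3_E
        rw [map_sub, map_sum, sub_mul, Finset.sum_mul]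
        congr 1
        exact Finset.sum_congr rfl fun m _ => by rw [map_mul, mul_assoc]
      simp only [e1, Finset.sum_sub_distrib, hv, Finset.mul_sum]
      rw [Finset.sum_comm]
    have hq0 : ∀ x : Fin n → Fin (n + 1) → A, (∀ j, N a (x j)) →
        ∑ l, q l * ∑ j, φ (x j l) * s j = 0 := by
      intro x hx
      simp only [Finset.mul_sum]
      rw [Finset.sum_comm]
      refine Finset.sum_eq_zero fun j _ => ?_
      have := hqN _ (hx j)
      have e1 : ∑ l, q l * (φ (x j l) * s j) = (∑ l, q l * φ (x j l)) * s j := by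
        rw [Finset.sum_mul]
        exact Finset.sum_congr rfl fun l _ => by rw [mul_assoc]
      rw [e1, this, zero_mul]
    have hv0 : v = 0 := by
      apply hres M hMc hKM k φ hφ hsur q ⟨i, hqi⟩ hqN v
      · exact hq0 b hb
      · have hne : ∀ l, v (i.succAbove l) - ∑ m, φ (C (i.succAbove l) m) * v m = 0 := by
          intro l
          rw [← hE]
          exact hs l
        have hi : v i - ∑ m, φ (C i m) * v m = 0 := by
          have h1 := hq0 (fun j => A3_E C (b j)) (fun j => A3_E_N hC _)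
          simp only [hE] at h1
          rw [Fin.sum_univ_succAbove _ i] at h1
          simp only [hne, mul_zero, Finset.sum_const_zero, add_zero, hqi, one_mul] at h1
          exact h1
        intro l
        rcases Fin.eq_self_or_eq_succAbove i l with rfl | ⟨l, rfl⟩
        · exact (sub_eq_zero.1 hi).symm
        · exact (sub_eq_zero.1 (hne l)).symm
    funext l
    have h1 := congrFun hv0 (i.succAbove l)
    have h2 : v (i.succAbove l) = φ u * s l := by
      simp only [hv, hbu]
      rw [Finset.sum_eq_single l]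
      · rw [if_pos rfl]
      · intro j _ hj
        rw [if_neg (Ne.symm hj), map_zero, zero_mul]
      · intro h
        exact absurd (Finset.mem_univ l) h
    rw [h2] at h1
    rcases mul_eq_zero.1 h1 with h3 | h3
    · exact absurd h3 hφu
    · exact h3)
  choose G hG using fun j m => hsur (Γ j m)
  have h10 : (1 : k) ≠ 0 := one_ne_zero
  refine ⟨i, u, b, G, hu, hnv, hb, hbu, ?_, ?_, ?_, ?_⟩
  · intro l m hlm
    rw [← hφ, map_sum]
    simp only [map_mul, hG]
    rw [hΓ1, if_neg hlm]
  · intro l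
    rw [← hφ, map_sum]
    simp only [map_mul, hG]
    rw [hΓ1, if_pos rfl]
    exact h10
  · intro j m hjm
    rw [← hφ, map_sum]
    simp only [map_mul, hG]
    rw [hΓ2, if_neg hjm]
  · intro j
    rw [← hφ, map_sum]
    simp only [map_mul, hG]
    rw [hΓ2, if_pos rfl]
    exact h10

end loc

section glob

variable {n : ℕ} {a : Fin (n + 1) → A} {K' : Submodule Aᵐᵒᵖ A} {C : Fin (n + 1) → Fin (n + 1) → A}
  (hR : IsReduced A) (hD : RDist A) (hK : K a ≤ K') (hleft : ∀ b z : A, z ∈ K' → b * z ∈ K')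
  (hloc : ∀ M : Submodule Aᵐᵒᵖ A, IsCoatom M → K' ≤ M → ∀ z ∈ K', ∃ t ∉ M, z * t = 0)
  (hC : ∀ j, ∑ l, a l * C l j = a j)
  (hres : ∀ M : Submodule Aᵐᵒᵖ A, IsCoatom M → K' ≤ M → ∀ (k : Type v) [DivisionRing k]
      (φ : A →+* k), (∀ x, φ x = 0 ↔ x ∈ M) → Function.Surjective φ → ∀ q : Fin (n + 1) → k,
      (∃ i, q i = 1) → (∀ x, N a x → ∑ j, q j * φ (x j) = 0) →
      ∀ v : Fin (n + 1) → k, ∑ j, q j * v j = 0 → (∀ l, ∑ j, φ (C l j) * v j = v l) → v = 0)

include hR hD hK hC hres in
lemma A3_loc_surj {M : Submodule Aᵐᵒᵖ A} (hMc : IsCoatom M) (hKM : K' ≤ M) {z : Fin (n + 1) → A}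
    (hz : N a z) : ∃ t ∉ M, ∃ y, N a y ∧ ∀ l, A3_E C y l = z l * t := by
  have hM := nice hD hMc
  obtain ⟨i, u, b, G, hu, hnv, hb, hbu, g1, g2, _, _⟩ := A3_basis hR hD hK hC hres hMc hKM
  obtain ⟨t, ht, s0, hs0⟩ := elim_surj hM hD n
    (fun l m => ∑ j, A3_E C (b j) (i.succAbove l) * G j m) g1 g2 (fun l => z (i.succAbove l))
  set s : Fin n → A := fun j => ∑ m, G j m * s0 m with hsdef
  have hs : ∀ l, ∑ j, A3_E C (b j) (i.succAbove l) * s j = z (i.succAbove l) * t := by
    intro l
    rw [← hs0 l]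
    simp only [hsdef, Finset.mul_sum, Finset.sum_mul]
    rw [Finset.sum_comm]
    exact Finset.sum_congr rfl fun m _ => Finset.sum_congr rfl fun j _ => by rw [mul_assoc]
  -- y = Σ b_j s_j
  let y : Fin (n + 1) → A := fun k => ∑ j, b j k * s j
  have hy : N a y := N_sum _ (fun j k => b j k * s j) (fun j _ => N_mul (hb j) _)
  have hEy : ∀ l, A3_E C y l = ∑ j, A3_E C (b j) l * s j := by
    intro l
    have : A3_E C y l = ∑ j, A3_E C (fun k => b j k * s j) l :=
      A3_E_sum C Finset.univ (fun j k => b j k * s j) l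
    rw [this]
    exact Finset.sum_congr rfl fun j _ => A3_E_mul _ _ _ _
  obtain ⟨t', ht', h'⟩ := supp hR hD hMc hnv
    (N_sub (A3_E_N hC y) (N_mul hz t)) (by
      intro l
      rw [hEy, hs, sub_self])
  refine ⟨t * t', prime' hM ht ht', fun j => y j * t', N_mul hy _, ?_⟩
  intro l
  rw [A3_E_mul, ← mul_assoc, ← sub_eq_zero, ← sub_mul]
  exact h' l

include hR hD hK hC hres hloc in
lemma A3_loc_inj {M : Submodule Aᵐᵒᵖ A} (hMc : IsCoatom M) (hKM : K' ≤ M) {x : Fin (n + 1) → A}
    (hx : N a x) (hE : ∀ l, A3_E C x l ∈ K') : ∃ t ∉ M, ∀ j, x j * t = 0 := by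
  have hM := nice hD hMc
  obtain ⟨i, u, b, G, hu, hnv, hb, hbu, _, _, g3, g4⟩ := A3_basis hR hD hK hC hres hMc hKM
  -- kill E x
  obtain ⟨t0, ht0, h0⟩ := commonZero hM hD (fun l => A3_E C x l)
    (fun l => hloc M hMc hKM _ (hE l))
  obtain ⟨t, ht, s, hs⟩ := commonOre hM hD (fun j : Fin n => x (i.succAbove j)) (fun _ => u)
    (fun _ => hu)
  let y : Fin (n + 1) → A := fun k => ∑ j, b j k * s j
  have hy : N a y := N_sum _ (fun j k => b j k * s j) (fun j _ => N_mul (hb j) _)
  have hEy : ∀ l, A3_E C y l = ∑ j, A3_E C (b j) l * s j := by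
    intro l
    have : A3_E C y l = ∑ j, A3_E C (fun k => b j k * s j) l :=
      A3_E_sum C Finset.univ (fun j k => b j k * s j) l
    rw [this]
    exact Finset.sum_congr rfl fun j _ => A3_E_mul _ _ _ _
  obtain ⟨t', ht', h'⟩ := supp hR hD hMc hnv
    (N_sub (N_mul hx t) hy) (by
      intro l
      have : y (i.succAbove l) = u * s l := by
        simp only [y, hbu, ite_mul, zero_mul, Finset.sum_ite_eq, Finset.mem_univ, if_true]
      rw [this, ← hs l, sub_self])
  -- x t t' = y t'
  have h1 : ∀ j, x j * t * t' = y j * t' := by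
    intro j
    have := h' j
    rw [sub_mul, sub_eq_zero] at this
    exact this
  obtain ⟨t1, ht1, ⟨g, hg⟩⟩ := ore hM hD (t * t') ht0
  have h2 : ∀ l, A3_E C y l * (t' * t1) = 0 := by
    intro l
    have e1 : A3_E C (fun j => x j * t * t') l = A3_E C (fun j => y j * t') l := by
      simp only [h1]
    have e2 : A3_E C (fun j => x j * t * t') l = A3_E C x l * (t * t') := by
      simp only [mul_assoc]
      rw [A3_E_mul]
    rw [e2, A3_E_mul C y] at e1
    rw [← mul_assoc, ← e1, mul_assoc, hg, ← mul_assoc, h0, zero_mul]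
  obtain ⟨t2, ht2, h3⟩ := elim_inj hM hR hD n (fun j m => ∑ l, G j l * A3_E C (b m) (i.succAbove l))
    g3 g4 (fun j => s j * (t' * t1)) (by
      intro j
      have e1 : ∑ m, (∑ l, G j l * A3_E C (b m) (i.succAbove l)) * (s m * (t' * t1)) =
          ∑ l, G j l * (A3_E C y (i.succAbove l) * (t' * t1)) := by
        simp only [hEy, Finset.sum_mul, Finset.mul_sum]
        rw [Finset.sum_comm]
        exact Finset.sum_congr rfl fun l _ => Finset.sum_congr rfl fun m _ => by simp only [mul_assoc]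
      rw [e1]
      refine Finset.sum_eq_zero fun l _ => ?_
      rw [h2, mul_zero])
  refine ⟨t * t' * t1 * t2, prime' hM (prime' hM (prime' hM ht ht') ht1) ht2, ?_⟩
  intro j
  have e : x j * (t * t' * t1 * t2) = (x j * t * t') * t1 * t2 := by noncomm_ring
  rw [e, h1 j]
  simp only [y, Finset.sum_mul]
  refine Finset.sum_eq_zero fun k _ => ?_
  have := h3 k
  calc b k j * s k * t' * t1 * t2 = b k j * (s k * (t' * t1) * t2) := by noncomm_ring
    _ = 0 := by rw [this, mul_zero]

include hR hD hK hC hres hleft in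
lemma A3_glob_surj {z : Fin (n + 1) → A} (hz : N a z) :
    ∃ y, N a y ∧ ∀ l, A3_E C y l - z l ∈ K' := by
  let T : Submodule Aᵐᵒᵖ A :=
    { carrier := {t | ∃ y, N a y ∧ ∀ l, A3_E C y l - z l * t ∈ K'}
      add_mem' := by
        rintro t t' ⟨y, hy, h⟩ ⟨y', hy', h'⟩
        refine ⟨fun j => y j - (0 - y' j), N_sub hy (N_sub ?_ hy'), ?_⟩
        · unfold N; simp
        intro l
        have e : A3_E C (fun j => y j - (0 - y' j)) l = A3_E C y l + A3_E C y' l := by
          rw [A3_E_sub, A3_E_sub C (fun _ => 0) y']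
          have e0 : A3_E C (fun _ => 0) l = 0 := by unfold A3_E; simp
          rw [e0]; abel
        rw [e, mul_add]
        have := K'.add_mem (h l) (h' l)
        have e2 : A3_E C y l + A3_E C y' l - (z l * t + z l * t') =
          A3_E C y l - z l * t + (A3_E C y' l - z l * t') := by abel
        rw [e2]; exact this
      zero_mem' := by
        refine ⟨fun _ => 0, by unfold N; simp, fun l => ?_⟩
        have : A3_E C (fun _ => 0) l - z l * 0 = 0 := by unfold A3_E; simp
        rw [this]; exact K'.zero_mem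
      smul_mem' := by
        rintro c t ⟨y, hy, h⟩
        refine ⟨fun j => y j * MulOpposite.unop c, N_mul hy _, fun l => ?_⟩
        have : A3_E C (fun j => y j * MulOpposite.unop c) l - z l * (c • t) =
            (A3_E C y l - z l * t) * MulOpposite.unop c := by
          rw [A3_E_mul, sub_mul]; simp [mul_assoc]
        rw [this]; exact mulR (h l) _ }
  have hT : ∀ t, t ∈ T ↔ ∃ y, N a y ∧ ∀ l, A3_E C y l - z l * t ∈ K' := fun t => Iff.rfl
  by_contra hcon
  have h1 : (1 : A) ∉ T := by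
    intro h
    rw [hT] at h
    simp only [mul_one] at h
    exact hcon h
  obtain ⟨M, hM, hTM⟩ := exists_coatom T h1
  have hKM : K' ≤ M := by
    intro k hk
    apply hTM
    rw [hT]
    refine ⟨fun _ => 0, by unfold N; simp, fun l => ?_⟩
    have : A3_E C (fun _ => 0) l - z l * k = -(z l * k) := by unfold A3_E; simp
    rw [this]
    exact K'.neg_mem (hleft _ _ hk)
  obtain ⟨t, ht, y, hy, h⟩ := A3_loc_surj hR hD hK hC hres hM hKM hz
  apply ht
  apply hTM
  rw [hT]
  exact ⟨y, hy, fun l => by rw [h, sub_self]; exact K'.zero_mem⟩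

include hR hD hK hC hres hleft hloc in
lemma A3_glob_inj {x : Fin (n + 1) → A} (hx : N a x) (hE : ∀ l, A3_E C x l ∈ K') (j : Fin (n + 1)) :
    x j ∈ K' := by
  let T : Submodule Aᵐᵒᵖ A :=
    { carrier := {t | x j * t ∈ K'}
      add_mem' := by
        intro t t' h h'
        change x j * (t + t') ∈ K'
        rw [mul_add]; exact K'.add_mem h h'
      zero_mem' := by change x j * 0 ∈ K'; rw [mul_zero]; exact K'.zero_mem
      smul_mem' := by
        intro c t h
        change x j * (c • t) ∈ K'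
        have : x j * (c • t) = (x j * t) * MulOpposite.unop c := by simp [mul_assoc]
        rw [this]; exact mulR h _ }
  have hT : ∀ t, t ∈ T ↔ x j * t ∈ K' := fun t => Iff.rfl
  by_contra hcon
  have h1 : (1 : A) ∉ T := by
    intro h
    rw [hT, mul_one] at h
    exact hcon h
  obtain ⟨M, hM, hTM⟩ := exists_coatom T h1
  have hKM : K' ≤ M := by
    intro k hk
    apply hTM
    rw [hT]
    exact hleft _ _ hk
  obtain ⟨t, ht, h⟩ := A3_loc_inj hR hD hK hloc hC hres hM hKM hx hE
  apply ht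
  apply hTM
  rw [hT, h]
  exact K'.zero_mem

end glob

theorem local_global (hR : IsReduced A) (hD : RDist A) {n : ℕ} (a : Fin (n + 1) → A)
    (K' : Submodule Aᵐᵒᵖ A) (hK : K a ≤ K') (hleft : ∀ b z : A, z ∈ K' → b * z ∈ K')
    (hloc : ∀ M : Submodule Aᵐᵒᵖ A, IsCoatom M → K' ≤ M → ∀ z ∈ K', ∃ t ∉ M, z * t = 0)
    (C : Fin (n + 1) → Fin (n + 1) → A) (hC : ∀ j, ∑ l, a l * C l j = a j)
    (hres : ∀ M : Submodule Aᵐᵒᵖ A, IsCoatom M → K' ≤ M → ∀ (k : Type v) [DivisionRing k]
      (φ : A →+* k), (∀ x, φ x = 0 ↔ x ∈ M) → Function.Surjective φ → ∀ q : Fin (n + 1) → k,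
      (∃ i, q i = 1) → (∀ x, N a x → ∑ j, q j * φ (x j) = 0) →
      ∀ v : Fin (n + 1) → k, ∑ j, q j * v j = 0 → (∀ l, ∑ j, φ (C l j) * v j = v l) → v = 0) :
    ∃ C' : Fin (n + 1) → Fin (n + 1) → A, (∀ j, ∑ l, a l * C' l j = a j) ∧
      ∀ x, N a x → ∀ l, ∑ j, C' l j * x j ∈ K' := by
  classical
  have h1 : ∀ k : Fin (n + 1), ∃ f, N a f ∧
      ∀ l, A3_E C f l - A3_E C (fun j => if j = k then 1 else 0) l ∈ K' :=
    fun k => A3_glob_surj hR hD hK hleft hC hres (A3_E_N hC _)
  choose f hf hfE using h1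
  refine ⟨fun l k => (if l = k then 1 else 0) - f k l, ?_, ?_⟩
  · intro j
    simp only [mul_sub, Finset.sum_sub_distrib]
    have e1 : ∑ l, a l * f j l = 0 := hf j
    rw [e1, sub_zero]
    simp
  · intro x hx
    -- w = F x - x
    have hw : N a (fun l => ∑ k, f k l * x k - x l) :=
      N_sub (N_sum _ (fun k l => f k l * x k) (fun k _ => N_mul (hf k) _)) hx
    have hwE : ∀ l, A3_E C (fun l => ∑ k, f k l * x k - x l) l ∈ K' := by
      intro l
      have e1 : A3_E C (fun l => ∑ k, f k l * x k - x l) l = ∑ k, A3_E C (f k) l * x k - A3_E C x l := by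
        rw [A3_E_sub C (fun l => ∑ k, f k l * x k) x, A3_E_sum C Finset.univ (fun k l => f k l * x k)]
        congr 1
        exact Finset.sum_congr rfl fun k _ => A3_E_mul _ _ _ _
      have e2 : A3_E C x l = ∑ k, A3_E C (fun j => if j = k then 1 else 0) l * x k := by
        have : x = fun l => ∑ k, (if l = k then (1 : A) else 0) * x k := by
          funext l
          simp
        conv_lhs => rw [this]
        rw [A3_E_sum C Finset.univ (fun k l => (if l = k then (1 : A) else 0) * x k)]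
        exact Finset.sum_congr rfl fun k _ => A3_E_mul _ _ _ _
      rw [e1, e2, ← Finset.sum_sub_distrib]
      refine K'.sum_mem fun k _ => ?_
      rw [← sub_mul]
      exact mulR (hfE k l) _
    intro l
    have hwK := A3_glob_inj hR hD hK hleft hloc hC hres hw hwE l
    have e3 : ∑ j, ((if l = j then 1 else 0) - f j l) * x j = -(∑ k, f k l * x k - x l) := by
      simp only [sub_mul, Finset.sum_sub_distrib]
      simp
    rw [e3]
    exact K'.neg_mem hwK

end Pool.Agent.FlatTr
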