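import Pool.Agent.FlatTr.A1
import Pool.Agent.H87.FlatRD.Partition

/-!
# MP_7346ec_al, FlatTr, module A4: the matrix `Z` (helper52)

`b := Function.update a i0 0`, so `∑ l, b l * Z l j` is the sum over `l ≠ i0`. `Dom a b i0`: the elements `t` with
`a i0 * t ∈ ∑ b l A`. `exists_Z`: let `W` be the set of all `w0 = ∑ j, ∑ l, C j l * Z l j + t + κ` with `Z`, `w`, `t`, `ζ`, `κ` as in
the statement (without the last condition): a right ideal (multiply `Z`, `w`, `t`, `ζ`, `κ` on the right by an element;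
`κ ∈ K b`). It is not contained in a coatom `M`: clear if `K b ≰ M`. Let `K b ≤ M`: `exists_U` for `b` gives `i`, `u ∉ M`,
`b j * u = b i * c j`; `i ≠ i0` (otherwise `u ∈ K b ≤ M`). `comp` for `a i0`, `b i`: either `a i0 * t = b i * d` with `t ∉ M`:
`t ∈ W`. Or `b i * t = a i0 * d`, `t ∉ M`: take `Z` with only one nonzero entry: `Z i j = t` for one `j`, `w j = d`: so
`C j i * t ∈ W` for all `j`. If all `C j i ∈ M`: `∑ l, b l * C l i = b i`, `C l i * s = u * y l` (`commonOre`, `s ∉ M`), so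
`b i * (s - ∑ l, c l * y l) = 0`, the bracket is in `M` (`nonvan`, `zeroLoc`), `y l ∈ M` (as `u * y l ∈ M`, `prime'`), so `s ∈ M`,
contradiction. So `C j i * t ∉ M` for some `j` (`prime'`).
The last condition: for `M ∈ S` with `K b ≤ M` choose an element `(Z, w, t, ζ)` as follows: if some `t ∈ Dom`, `t ∉ M`:
`Z = 0` and `t * g ≡ 1` modulo `M`. Otherwise the second alternative above: `Z` with one nonzero column and `∑∑ C Z ≡ 1`
modulo `M` (multiply by an inverse). For `M ∈ S` with `K b ≰ M` take `κ ≡ 1` modulo `M`. Multiply them on the right by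
elements `e_M ≡ 1` modulo `M`, `e_M ∈ M'` for the other `M' ∈ S` (`FlatRD.crt`), add them, the sum is `ρ`, `1 - ρ ∈ M` for all `M ∈ S`;
add the general solution multiplied on the right by `1 - ρ` (as in `FlatRD.partition_of_finite`). Coatoms are two-sided
(`nice`), so a matrix multiplied on the right by an element of `M` has entries in `M`.
-/

set_option autoImplicit false

namespace Pool.Agent.FlatTr

open Pool.Agent.FlatRD

universe v

variable {A : Type v} [Ring A]

open MulOpposite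

/-- the tuples `(Z, w, ζ, t, κ)` -/
abbrev A4_X (A : Type v) (n : ℕ) : Type v :=
  (Fin (n + 1) → Fin (n + 1) → A) × (Fin (n + 1) → A) × (Fin (n + 1) → A) × A × A

/-- the tuples which satisfy the linear conditions -/
def A4_Sol {n : ℕ} (a b : Fin (n + 1) → A) (i0 : Fin (n + 1)) : Submodule Aᵐᵒᵖ (A4_X A n) where
  carrier := {x | (∀ j, ∑ l, b l * x.1 l j = a i0 * x.2.1 j) ∧
    a i0 * x.2.2.2.1 = ∑ l, b l * x.2.2.1 l ∧ x.2.2.2.2 ∈ K b}
  add_mem' := by
    rintro x y ⟨h1, h2, h3⟩ ⟨g1, g2, g3⟩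
    refine ⟨fun j => ?_, ?_, (K b).add_mem h3 g3⟩
    · simp only [Prod.fst_add, Prod.snd_add, Pi.add_apply, mul_add, Finset.sum_add_distrib]
      rw [h1, g1]
    · simp only [Prod.fst_add, Prod.snd_add, Pi.add_apply, mul_add, Finset.sum_add_distrib]
      rw [h2, g2]
  zero_mem' := by
    refine ⟨fun j => ?_, ?_, (K b).zero_mem⟩
    · simp
    · simp
  smul_mem' := by
    rintro c x ⟨h1, h2, h3⟩
    refine ⟨fun j => ?_, ?_, (K b).smul_mem c h3⟩
    · simp only [Prod.smul_fst, Prod.smul_snd, Pi.smul_apply, smul_eq_mul_unop, ← mul_assoc]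
      rw [← Finset.sum_mul, h1]
    · simp only [Prod.smul_fst, Prod.smul_snd, Pi.smul_apply, smul_eq_mul_unop, ← mul_assoc]
      rw [← Finset.sum_mul, h2]

/-- the linear form `∑∑ C Z + t + κ` -/
def A4_rho {n : ℕ} (C : Fin (n + 1) → Fin (n + 1) → A) : A4_X A n →ₗ[Aᵐᵒᵖ] A where
  toFun x := (∑ j, ∑ l, C j l * x.1 l j) + x.2.2.2.1 + x.2.2.2.2
  map_add' := by
    intro x y
    simp only [Prod.fst_add, Prod.snd_add, Pi.add_apply, mul_add, Finset.sum_add_distrib]
    abel
  map_smul' := by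
    intro c x
    simp only [Prod.smul_fst, Prod.smul_snd, Pi.smul_apply, smul_eq_mul_unop, RingHom.id_apply,
      add_mul, Finset.sum_mul, mul_assoc]

/-- the local solution at `M` -/
lemma A4_loc (hD : RDist A) {n : ℕ} (a b : Fin (n + 1) → A)
    (i0 : Fin (n + 1))
    (C : Fin (n + 1) → Fin (n + 1) → A) (hC : ∀ j, ∑ l, b l * C l j = b j)
    {M : Submodule Aᵐᵒᵖ A} (hMc : IsCoatom M) :
    ∃ x ∈ A4_Sol a b i0, A4_rho C x ∉ M ∧
      ((∀ i j, x.1 i j = 0) ∨ (x.2.2.2.1 = 0 ∧ ∃ l, ∀ j, j ≠ l → ∀ i, x.1 i j = 0)) := by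
  classical
  have hM := nice hD hMc
  by_cases hK : K b ≤ M
  · obtain ⟨i, u, hu, huM⟩ := exists_U hD b hM
    have hnv := nonvan hD b hM hK hu huM
    rcases comp hM hD (a i0) (b i) with ⟨t, ht, c, e⟩ | ⟨t, ht, d, e⟩
    · refine ⟨(0, 0, Pi.single i c, t, 0), ⟨fun j => by simp, ?_, (K b).zero_mem⟩, ?_,
        Or.inl fun _ _ => rfl⟩
      · simp only
        rw [e, Finset.sum_eq_single i]
        · simp
        · intro l _ hl
          simp [Pi.single_eq_of_ne hl]
        · intro h; exact absurd (Finset.mem_univ _) h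
      · have : A4_rho C ((0, 0, Pi.single i c, t, 0) : A4_X A n) = t := by
          simp [A4_rho]
        rw [this]; exact ht
    · -- some `C j i` is not in `M`
      obtain ⟨j, hj⟩ : ∃ j, C j i ∉ M := by
        by_contra hcon
        push Not at hcon
        choose c hc using hu
        obtain ⟨s, hs, y, hy⟩ := commonOre hM hD (fun l => C l i) (fun _ => u) (fun _ => huM)
        have h1 : b i * (s - ∑ l, c l * y l) = 0 := by
          have e1 : b i * s = ∑ l, b i * (c l * y l) := by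
            conv_lhs => rw [← hC i]
            rw [Finset.sum_mul]
            refine Finset.sum_congr rfl fun l _ => ?_
            rw [mul_assoc, hy l, ← mul_assoc, hc l, mul_assoc]
          rw [mul_sub, Finset.mul_sum, e1, sub_self]
        have h2 : s - ∑ l, c l * y l ∈ M := by
          by_contra h
          exact hnv _ h h1
        have h3 : ∀ l, y l ∈ M := by
          intro l
          by_contra h
          refine prime' hM huM h ?_
          rw [← hy l]
          exact mulR (hcon l) _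
        have h4 : ∑ l, c l * y l ∈ M := M.sum_mem fun l _ => hM.left _ _ (h3 l)
        have h5 := M.add_mem h2 h4
        rw [sub_add_cancel] at h5
        exact hs h5
      refine ⟨(fun l j' => if l = i then (if j' = j then t else 0) else 0,
        fun j' => if j' = j then d else 0, 0, 0, 0), ⟨fun j' => ?_, by simp, (K b).zero_mem⟩,
        ?_, Or.inr ⟨rfl, j, fun j' hj' l => ?_⟩⟩
      · simp only [mul_ite, mul_zero, Finset.sum_ite_eq', Finset.mem_univ, if_true]
        by_cases h : j' = j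
        · rw [if_pos h, if_pos h, e]
        · rw [if_neg h, if_neg h]
      · have : A4_rho C ((fun l j' => if l = i then (if j' = j then t else 0) else 0,
            fun j' => if j' = j then d else 0, 0, 0, 0) : A4_X A n) = C j i * t := by
          simp [A4_rho]
        rw [this]
        exact prime' hM hj ht
      · simp only
        split_ifs <;> rfl
  · obtain ⟨κ, hκ, hκM⟩ := Set.not_subset.1 hK
    refine ⟨(0, 0, 0, 0, κ), ⟨fun j => by simp, by simp, hκ⟩, ?_, Or.inl fun _ _ => rfl⟩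
    have : A4_rho C ((0, 0, 0, 0, κ) : A4_X A n) = κ := by
      simp [A4_rho]
    rw [this]
    exact hκM

/-- the local solution, normalised at `M` -/
lemma A4_loc' (hD : RDist A) {n : ℕ} (a b : Fin (n + 1) → A)
    (i0 : Fin (n + 1))
    (C : Fin (n + 1) → Fin (n + 1) → A) (hC : ∀ j, ∑ l, b l * C l j = b j)
    {M : Submodule Aᵐᵒᵖ A} (hMc : IsCoatom M) :
    ∃ x ∈ A4_Sol a b i0, A4_rho C x - 1 ∈ M ∧
      ((∀ i j, x.1 i j = 0) ∨ (x.2.2.2.1 = 0 ∧ ∃ l, ∀ j, j ≠ l → ∀ i, x.1 i j = 0)) := by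
  obtain ⟨x, hx, hxM, h⟩ := A4_loc hD a b i0 C hC hMc
  obtain ⟨g, hg⟩ := exists_div hMc _ hxM
  refine ⟨op g • x, (A4_Sol a b i0).smul_mem _ hx, ?_, ?_⟩
  · rw [map_smul, smul_eq_mul_unop, unop_op]
    exact hg
  · rcases h with h | ⟨h1, l, h2⟩
    · refine Or.inl fun i j => ?_
      simp [h i j]
    · refine Or.inr ⟨by simp [h1], l, fun j hj i => ?_⟩
      simp [h2 j hj i]

theorem exists_Z (hR : IsReduced A) (hD : RDist A) {n : ℕ} (a b : Fin (n + 1) → A)
    (i0 : Fin (n + 1)) (hb : b = Function.update a i0 0)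
    (C : Fin (n + 1) → Fin (n + 1) → A) (hC : ∀ j, ∑ l, b l * C l j = b j)
    (S : Finset (Submodule Aᵐᵒᵖ A)) (hS : ∀ M ∈ S, IsCoatom M) :
    ∃ (Z : Fin (n + 1) → Fin (n + 1) → A) (w ζ : Fin (n + 1) → A) (t κ : A),
      (∀ j, ∑ l, b l * Z l j = a i0 * w j) ∧ a i0 * t = ∑ l, b l * ζ l ∧ κ ∈ K b ∧
      (∑ j, ∑ l, C j l * Z l j) + t + κ = 1 ∧
      ∀ M ∈ S, K b ≤ M → (∀ i j, Z i j ∈ M) ∨ (t ∈ M ∧ ∃ l, ∀ j, j ≠ l → ∀ i, Z i j ∈ M) := by
  classical
  have _ := hR
  have _ := hb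
  -- a global solution
  obtain ⟨x0, hx0, hx0'⟩ : ∃ x ∈ A4_Sol a b i0, A4_rho C x = 1 := by
    by_contra hcon
    have h1 : (1 : A) ∉ (A4_Sol a b i0).map (A4_rho C) := by
      intro h
      obtain ⟨x, hx, hx'⟩ := Submodule.mem_map.1 h
      exact hcon ⟨x, hx, hx'⟩
    obtain ⟨M, hM, hle⟩ := exists_coatom _ h1
    obtain ⟨x, hx, hxM, -⟩ := A4_loc hD a b i0 C hC hM
    exact hxM (hle (Submodule.mem_map_of_mem hx))
  -- the local solutions at the exceptional coatoms
  have hex : ∀ M : Submodule Aᵐᵒᵖ A, ∃ (x : A4_X A n) (e : A), M ∈ S →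
      (x ∈ A4_Sol a b i0 ∧ A4_rho C x - 1 ∈ M ∧
      ((∀ i j, x.1 i j = 0) ∨ (x.2.2.2.1 = 0 ∧ ∃ l, ∀ j, j ≠ l → ∀ i, x.1 i j = 0)) ∧
      e - 1 ∈ M ∧ ∀ M' ∈ S, M' ≠ M → e ∈ M') := by
    intro M
    by_cases hMS : M ∈ S
    · obtain ⟨x, hx, hxM, h⟩ := A4_loc' hD a b i0 C hC (hS M hMS)
      obtain ⟨e, he1, he2⟩ := crt hD (S.erase M)
        (fun M' hM' => hS M' (Finset.mem_of_mem_erase hM')) (hS M hMS)
        (Finset.notMem_erase _ _)
      exact ⟨x, e, fun _ => ⟨hx, hxM, h, he1, fun M' hM' hne =>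
        he2 M' (Finset.mem_erase.2 ⟨hne, hM'⟩)⟩⟩
    · exact ⟨0, 0, fun h => absurd h hMS⟩
  choose x e hxe using hex
  -- the sum
  let y : A4_X A n := ∑ M ∈ S, op (e M) • x M
  let ρ : A := A4_rho C y
  have hyS : y ∈ A4_Sol a b i0 :=
    (A4_Sol a b i0).sum_mem fun M hM => (A4_Sol a b i0).smul_mem _ (hxe M hM).1
  have hρ : ∀ M ∈ S, 1 - ρ ∈ M := by
    intro M hM
    have hl := (nice hD (hS M hM)).left
    have e1 : ρ = ∑ M' ∈ S, A4_rho C (x M') * e M' := by
      simp only [ρ, y, map_sum, map_smul, smul_eq_mul_unop, unop_op]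
    have e2 : ρ - 1 ∈ M := by
      rw [e1, ← Finset.add_sum_erase _ _ hM]
      have e3 : A4_rho C (x M) * e M + ∑ M' ∈ S.erase M, A4_rho C (x M') * e M' - 1 =
          (A4_rho C (x M) - 1) * e M + (e M - 1) +
            ∑ M' ∈ S.erase M, A4_rho C (x M') * e M' := by
        rw [sub_mul, one_mul]; abel
      rw [e3]
      refine M.add_mem (M.add_mem (mulR (hxe M hM).2.1 _) (hxe M hM).2.2.2.1)
        (M.sum_mem fun M' hM' => ?_)
      have h2 := Finset.mem_erase.1 hM'
      exact hl _ _ ((hxe M' h2.2).2.2.2.2 M hM (Ne.symm h2.1))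
    have e4 : 1 - ρ = -(ρ - 1) := by abel
    rw [e4]
    exact M.neg_mem e2
  let z : A4_X A n := y + op (1 - ρ) • x0
  have hzS : z ∈ A4_Sol a b i0 := (A4_Sol a b i0).add_mem hyS ((A4_Sol a b i0).smul_mem _ hx0)
  have hz1 : A4_rho C z = 1 := by
    simp only [z, map_add, map_smul, smul_eq_mul_unop, unop_op, hx0', one_mul]
    change ρ + (1 - ρ) = 1
    abel
  obtain ⟨hz2, hz3, hz4⟩ := hzS
  -- the entries of `z` modulo `M`
  have hzM : ∀ (f : A4_X A n →ₗ[Aᵐᵒᵖ] A), ∀ M ∈ S, f (x M) = 0 → f z ∈ M := by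
    intro f M hM hf
    have hl := (nice hD (hS M hM)).left
    have e1 : f z = ∑ M' ∈ S, f (x M') * e M' + f x0 * (1 - ρ) := by
      simp only [z, y, map_add, map_sum, map_smul, smul_eq_mul_unop, unop_op]
    rw [e1]
    refine M.add_mem (M.sum_mem fun M' hM' => ?_) (hl _ _ (hρ M hM))
    by_cases h : M' = M
    · rw [h, hf, zero_mul]; exact M.zero_mem
    · exact hl _ _ ((hxe M' hM').2.2.2.2 M hM (Ne.symm h))
  let fZ : Fin (n + 1) → Fin (n + 1) → A4_X A n →ₗ[Aᵐᵒᵖ] A := fun i j =>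
    { toFun := fun x => x.1 i j
      map_add' := fun _ _ => rfl
      map_smul' := fun _ _ => rfl }
  let ft : A4_X A n →ₗ[Aᵐᵒᵖ] A :=
    { toFun := fun x => x.2.2.2.1
      map_add' := fun _ _ => rfl
      map_smul' := fun _ _ => rfl }
  refine ⟨z.1, z.2.1, z.2.2.1, z.2.2.2.1, z.2.2.2.2, hz2, hz3, hz4, hz1, ?_⟩
  intro M hM _
  rcases (hxe M hM).2.2.1 with h | ⟨h1, l, h2⟩
  · left
    intro i j
    exact hzM (fZ i j) M hM (h i j)
  · right
    exact ⟨hzM ft M hM h1, l, fun j hj i => hzM (fZ i j) M hM (h2 j hj i)⟩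

end Pool.Agent.FlatTr
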