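import Pool.Agent.FlatTr.A2
import Pool.Agent.FlatTr.A3
import Pool.Agent.FlatTr.A4

/-!
# MP_7346ec_al, FlatTr, module A5: the induction (helper52)

`Good a`: there is `C` with `a C = a` and `C x ∈ K a` for all `x ∈ N a`.
`step`: `b = update a i0 0`, `C` from `Good b`, `Z`, `w`, `ζ`, `t`, `κ` from `exists_Z` (with the finite set of exceptional coatoms).
`C' l j := if j = i0 then (if l = i0 then 1 - t else ζ l) else (if l = i0 then ∑ m, w m * C m j else C l j - ∑ m, Z l m * C m j)`.
`a C' = a`: direct. Apply `local_global` with `K' = K b`: `hres` from `res_zero`: at `M ≥ K b` take `exists_row` for `b`: `p`, `i`, `u`, `c'`.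
`p i0 = 0`: `b i0 * u = 0 = b i * c' i0`, so `c' i0 ∈ M` (nonvanishing and `zeroLoc`). `i ≠ i0`. `c l := φ (C l i)`.
`φ (C l j) = c l * p j`: `x = e_j * u - e_i * c' j ∈ N b` (careful with `j = i`), `C x ∈ K b ≤ M`. `∑ p j * c j = 1`: `C e_i - e_i ∈ N b` by
`hC`. `lam := q i`; `q j = lam * p j` for `j ≠ i0`: `e_j * u - e_i * c' j ∈ N a` (as `a j = b j`, `a i = b i`). `hZ`: column `j` of `Z`
without the entry `i0` and with the entry `- w j` at `i0` is in `N a`; then `∑_{l ≠ i0} q l * φ (Z l j) = q i0 * φ (w j)`. `ht` in the
same way. `h1`: `φ κ = 0`.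
The condition: `M` exceptional (in `S`) or `¬ IsComm (1 : k)` (lift the elements of `k` to `A` by surjectivity: `IsComm 1` in
`k` gives `1 - ∑ (x i * y i - y i * x i) ∈ M`).
`good_all`: by induction on the finset `s` for all `a` with `a j = 0` for `j ∉ s`. `s = ∅`: `C = 0`. `s = {i}`: `C i i = 1`, all other
entries `0`. Otherwise `i0 ≠ i1` in `s`: `step` for both gives `C0`, `C1`; `C = C1 C0` (`C l j = ∑ m, C1 l m * C0 m j`): for `x ∈ N a`
`C0 x ∈ N a` has entries in `K (update a i0 0)`, `C1 (C0 x)` has entries in `K (update a i1 0)` and in `K (update a i0 0)`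
(`K_left`), so in `K a`. (Use strong induction on the cardinality of `s`.)
`flat_of_good`: relation `∑ m i * x i = 0`: `C` for `a := m`, `x' = C x`, `K_pure`: `r ∈ K m`, `r * x' l = x' l`; `B = (1 - r) C`, `y = m`.
-/

set_option autoImplicit false

namespace Pool.Agent.FlatTr

open Pool.Agent.FlatRD

universe v

variable {A : Type v} [Ring A]

/-- `a C = a` and `C` maps the relations into `K a` -/
def Good {n : ℕ} (a : Fin (n + 1) → A) : Prop :=
  ∃ C : Fin (n + 1) → Fin (n + 1) → A, (∀ j, ∑ l, a l * C l j = a j) ∧
    ∀ x, N a x → ∀ l, ∑ j, C l j * x j ∈ K a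

/-- the maximal right ideals for which the identity is a sum of commutators modulo `M` -/
def ComRes (A : Type v) [Ring A] : Set (Submodule Aᵐᵒᵖ A) :=
  {M | IsCoatom M ∧ ∃ (m : ℕ) (x y : Fin m → A), 1 - ∑ i, (x i * y i - y i * x i) ∈ M}

private lemma A5_pair {n : ℕ} (f : Fin (n + 1) → A) (i j : Fin (n + 1)) (u c : A) :
    ∑ m, f m * ((if m = j then u else 0) - (if m = i then c else 0)) = f j * u - f i * c := by
  classical
  simp only [mul_sub, Finset.sum_sub_distrib, mul_ite, mul_zero, Finset.sum_ite_eq', Finset.mem_univ, if_true]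

private lemma A5_split {R : Type v} [Ring R] {n : ℕ} (i0 : Fin (n + 1)) (f : Fin (n + 1) → R) :
    ∑ j, f j = ∑ j, (if j = i0 then 0 else f j) + f i0 := by
  classical
  have h : ∀ j, f j = (if j = i0 then 0 else f j) + (if j = i0 then f j else 0) := by
    intro j
    by_cases h : j = i0
    · simp [h]
    · simp [h]
  calc ∑ j, f j = ∑ j, ((if j = i0 then 0 else f j) + (if j = i0 then f j else 0)) :=
        Finset.sum_congr rfl fun j _ => h j
    _ = _ := by
      rw [Finset.sum_add_distrib]
      congr 1
      rw [Finset.sum_ite_eq' Finset.univ i0 f, if_pos (Finset.mem_univ _)]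

private lemma A5_ab {n : ℕ} {a b : Fin (n + 1) → A} {i0 : Fin (n + 1)} (hb : b = Function.update a i0 0)
    (f : Fin (n + 1) → A) : ∑ l, a l * f l = a i0 * f i0 + ∑ l, b l * f l := by
  classical
  rw [A5_split i0 (fun l => a l * f l), add_comm]
  congr 1
  refine Finset.sum_congr rfl fun l _ => ?_
  rw [hb]
  by_cases h : l = i0
  · simp [h]
  · rw [if_neg h, Function.update_of_ne h]

theorem step (hR : IsReduced A) (hD : RDist A) (hfin : (ComRes A).Finite) {n : ℕ}
    (a b : Fin (n + 1) → A) (i0 : Fin (n + 1)) (hb : b = Function.update a i0 0) (hG : Good b) :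
    ∃ C : Fin (n + 1) → Fin (n + 1) → A, (∀ j, ∑ l, a l * C l j = a j) ∧
      ∀ x, N a x → ∀ l, ∑ j, C l j * x j ∈ K b := by
  classical
  have hbi0 : b i0 = 0 := by rw [hb, Function.update_self]
  have hbne : ∀ j, j ≠ i0 → b j = a j := fun j hj => by rw [hb, Function.update_of_ne hj]
  obtain ⟨C, hC, hCK⟩ := hG
  have hS : ∀ M ∈ hfin.toFinset, IsCoatom M := fun M hM => (hfin.mem_toFinset.1 hM).1
  obtain ⟨Z, w, ζ, t, κ, hZ, ht, hκ, h1, hcond⟩ := exists_Z hR hD a b i0 hb C hC hfin.toFinset hS
  -- replacement of the entry i0 in sums with b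
  have hbs : ∀ f g : Fin (n + 1) → A, (∀ l, l ≠ i0 → f l = g l) → ∑ l, b l * f l = ∑ l, b l * g l := by
    intro f g hfg
    refine Finset.sum_congr rfl fun l _ => ?_
    by_cases h : l = i0
    · rw [h, hbi0, zero_mul, zero_mul]
    · rw [hfg l h]
  have hC' : ∀ j, ∑ l, a l * (if j = i0 then (if l = i0 then 1 - t else ζ l) else
      (if l = i0 then ∑ m, w m * C m j else C l j - ∑ m, Z l m * C m j)) = a j := by
    intro j
    by_cases hj : j = i0
    · simp only [if_pos hj]
      rw [A5_ab hb, if_pos rfl, hbs _ ζ (fun l hl => by rw [if_neg hl]), ← ht, hj]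
      rw [mul_sub, mul_one, sub_add_cancel]
    · simp only [if_neg hj]
      rw [A5_ab hb, if_pos rfl, hbs _ (fun l => C l j - ∑ m, Z l m * C m j) (fun l hl => by rw [if_neg hl])]
      have e1 : ∑ l, b l * (C l j - ∑ m, Z l m * C m j) = b j - ∑ m, (a i0 * w m) * C m j := by
        simp only [mul_sub, Finset.sum_sub_distrib, hC]
        congr 1
        simp only [Finset.mul_sum]
        rw [Finset.sum_comm]
        refine Finset.sum_congr rfl fun m _ => ?_
        rw [← hZ m, Finset.sum_mul]
        refine Finset.sum_congr rfl fun l _ => ?_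
        rw [mul_assoc]
      rw [e1, Finset.mul_sum, hbne j hj]
      have e2 : ∀ m, a i0 * (w m * C m j) = a i0 * w m * C m j := fun m => by rw [mul_assoc]
      simp only [e2]
      abel
  refine local_global hR hD a (K b) ?_ (fun x z hz => K_left hR b hz x)
    (fun M hM hKM z hz => K_loc hR hD b (nice hD hM) hKM hz)
    (fun l j => if j = i0 then (if l = i0 then 1 - t else ζ l) else
      (if l = i0 then ∑ m, w m * C m j else C l j - ∑ m, Z l m * C m j)) hC' ?_
  · intro z hz j
    by_cases h : j = i0
    · rw [h, hbi0, zero_mul]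
    · rw [hbne j h]
      exact hz j
  intro M hMc hKM k _ φ hφ hsur q hq1 hq v hv hvC
  have hM := nice hD hMc
  obtain ⟨p, i, u, c', hu, hbc, hp, hpi, hnv, hNb⟩ := exists_row hR hD b hMc hKM φ hφ
  have hφu : φ u ≠ 0 := fun h => hu ((hφ u).1 h)
  have hi : i ≠ i0 := by
    rintro rfl
    exact hnv 1 hM.one (by rw [hbi0, zero_mul])
  have hp0 : p i0 = 0 := by
    have e1 : b i * c' i0 = 0 := by rw [← hbc i0, hbi0, zero_mul]
    obtain ⟨τ, hτ, h⟩ := zeroLoc hM hR hD e1 hnv
    have e2 : c' i0 ∈ M := by
      by_contra hcon
      exact prime' hM hcon hτ (by rw [h]; exact M.zero_mem)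
    have e3 : p i0 * φ u = 0 := by rw [hp, (hφ _).2 e2]
    exact (mul_eq_zero.1 e3).resolve_right hφu
  have hpair : ∀ j, N b (fun m => (if m = j then u else 0) - (if m = i then c' j else 0)) := by
    intro j
    unfold N
    rw [A5_pair, hbc, sub_self]
  have hCp : ∀ l j, φ (C l j) = φ (C l i) * p j := by
    intro l j
    have e1 := hKM (hCK _ (hpair j) l)
    rw [A5_pair] at e1
    have e2 := (hφ _).2 e1
    rw [map_sub, map_mul, map_mul, ← hp, ← mul_assoc, ← sub_mul] at e2
    exact sub_eq_zero.1 ((mul_eq_zero.1 e2).resolve_right hφu)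
  have hpc : ∑ j, p j * φ (C j i) = 1 := by
    have e1 : N b (fun m => C m i - (if m = i then 1 else 0)) := by
      unfold N
      simp only [mul_sub, Finset.sum_sub_distrib, mul_ite, mul_zero, mul_one, Finset.sum_ite_eq',
        Finset.mem_univ, if_true, hC, sub_self]
    have e2 := hNb _ e1
    have e3 : ∀ m, p m * φ (C m i - (if m = i then 1 else 0)) = p m * φ (C m i) - (if m = i then p m else 0) := by
      intro m
      by_cases h : m = i
      · simp [h, mul_sub]
      · simp [h]
    simp only [e3] at e2
    rw [Finset.sum_sub_distrib, Finset.sum_ite_eq' Finset.univ i p, if_pos (Finset.mem_univ _), hpi] at e2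
    exact sub_eq_zero.1 e2
  have hlam : ∀ j, j ≠ i0 → q j = q i * p j := by
    intro j hj
    have e1 : N a (fun m => (if m = j then u else 0) - (if m = i then c' j else 0)) := by
      unfold N
      rw [A5_pair, ← hbne j hj, ← hbne i hi, hbc, sub_self]
    have e2 := hq _ e1
    have e3 : ∀ m, q m * φ ((if m = j then u else 0) - (if m = i then c' j else 0)) =
        (if m = j then q m * φ u else 0) - (if m = i then q m * φ (c' j) else 0) := by
      intro m
      rw [map_sub, apply_ite φ, apply_ite φ, map_zero, mul_sub, mul_ite, mul_ite, mul_zero]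
    simp only [e3] at e2
    rw [Finset.sum_sub_distrib, Finset.sum_ite_eq' Finset.univ j (fun m => q m * φ u), if_pos (Finset.mem_univ _),
      Finset.sum_ite_eq' Finset.univ i (fun m => q m * φ (c' j)), if_pos (Finset.mem_univ _), ← hp,
      ← mul_assoc, ← sub_mul] at e2
    exact sub_eq_zero.1 ((mul_eq_zero.1 e2).resolve_right hφu)
  have hqs : ∀ f : Fin (n + 1) → k, ∑ l, (if l = i0 then 0 else q l * f l) = q i * ∑ l, p l * f l := by
    intro f
    rw [Finset.mul_sum]
    refine Finset.sum_congr rfl fun l _ => ?_
    by_cases h : l = i0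
    · rw [if_pos h, h, hp0, zero_mul, mul_zero]
    · rw [if_neg h, hlam l h, mul_assoc]
  have hZ' : ∀ j, q i * ∑ l, p l * φ (Z l j) = q i0 * φ (w j) := by
    intro j
    have e1 : N a (fun l => if l = i0 then -(w j) else Z l j) := by
      unfold N
      rw [A5_ab hb, if_pos rfl, hbs _ (fun l => Z l j) (fun l hl => by rw [if_neg hl]), hZ]
      rw [mul_neg, neg_add_cancel]
    have e2 := hq _ e1
    rw [A5_split i0, if_pos rfl, map_neg, mul_neg] at e2
    have e3 : ∀ l, (if l = i0 then 0 else q l * φ (if l = i0 then -(w j) else Z l j)) =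
        if l = i0 then 0 else q l * φ (Z l j) := by
      intro l
      by_cases h : l = i0
      · rw [if_pos h, if_pos h]
      · rw [if_neg h, if_neg h, if_neg h]
    simp only [e3] at e2
    rw [hqs (fun l => φ (Z l j))] at e2
    rw [← sub_eq_add_neg] at e2
    exact sub_eq_zero.1 e2
  have ht' : q i0 * φ t = q i * ∑ l, p l * φ (ζ l) := by
    have e1 : N a (fun l => if l = i0 then -t else ζ l) := by
      unfold N
      rw [A5_ab hb, if_pos rfl, hbs _ ζ (fun l hl => by rw [if_neg hl]), ← ht]
      rw [mul_neg, neg_add_cancel]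
    have e2 := hq _ e1
    rw [A5_split i0, if_pos rfl, map_neg, mul_neg] at e2
    have e3 : ∀ l, (if l = i0 then 0 else q l * φ (if l = i0 then -t else ζ l)) =
        if l = i0 then 0 else q l * φ (ζ l) := by
      intro l
      by_cases h : l = i0
      · rw [if_pos h, if_pos h]
      · rw [if_neg h, if_neg h, if_neg h]
    simp only [e3] at e2
    rw [hqs (fun l => φ (ζ l))] at e2
    rw [← sub_eq_add_neg] at e2
    exact (sub_eq_zero.1 e2).symm
  have h1' : ∑ j, φ (C j i) * (∑ l, p l * φ (Z l j)) + φ t = 1 := by
    have e1 := congrArg φ h1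
    have e2 : φ κ = 0 := (hφ κ).2 (hKM hκ)
    rw [map_add, map_add, e2, add_zero, map_one, map_sum] at e1
    rw [← e1]
    congr 1
    refine Finset.sum_congr rfl fun j _ => ?_
    rw [map_sum, Finset.mul_sum]
    refine Finset.sum_congr rfl fun l _ => ?_
    rw [map_mul, hCp j l, mul_assoc]
  refine res_zero i0 q p (fun l => φ (C l i)) (q i) ?_ hp0 hpc hlam (fun l j => φ (Z l j))
    (fun j => φ (w j)) (fun l => φ (ζ l)) (φ t) hZ' ht' h1' ?_ v hv ?_ ?_
  · obtain ⟨j, hj⟩ := hq1
    exact ⟨j, by rw [hj]; exact one_ne_zero⟩
  · by_cases hMS : M ∈ hfin.toFinset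
    · right
      rcases hcond M hMS hKM with h | ⟨h, l, h'⟩
      · left
        intro i j
        exact (hφ _).2 (h i j)
      · right
        exact ⟨(hφ _).2 h, l, fun j hj i => (hφ _).2 (h' j hj i)⟩
    · left
      rintro ⟨m, α, β, e⟩
      apply hMS
      rw [hfin.mem_toFinset]
      choose x hx using fun i => hsur (α i)
      choose y hy using fun i => hsur (β i)
      refine ⟨hMc, m, x, y, ?_⟩
      rw [← hφ, map_sub, map_one, map_sum, sub_eq_zero, e]
      refine Finset.sum_congr rfl fun i _ => ?_
      rw [map_sub, map_mul, map_mul, hx, hy]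
  · have e1 := hvC i0
    rw [A5_split i0] at e1
    simp only [if_true] at e1
    rw [map_sub, map_one] at e1
    refine Eq.trans ?_ e1
    congr 1
    refine Finset.sum_congr rfl fun j _ => ?_
    by_cases h : j = i0
    · rw [if_pos h, if_pos h]
    · rw [if_neg h, if_neg h, if_neg h, map_sum]
      congr 1
      refine Finset.sum_congr rfl fun m _ => ?_
      rw [map_mul, hCp m j]
  · intro l hl
    have e1 := hvC l
    rw [A5_split i0] at e1
    simp only [if_true, if_neg hl] at e1
    refine Eq.trans ?_ e1
    congr 1
    refine Finset.sum_congr rfl fun j _ => ?_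
    by_cases h : j = i0
    · rw [if_pos h, if_pos h]
    · rw [if_neg h, if_neg h, if_neg h, map_sub, map_sum, hCp l j]
      congr 2
      refine Finset.sum_congr rfl fun m _ => ?_
      rw [map_mul, hCp m j]

theorem good_all (hR : IsReduced A) (hD : RDist A) (hfin : (ComRes A).Finite) {n : ℕ}
    (a : Fin (n + 1) → A) : Good a := by
  classical
  have key : ∀ (m : ℕ) (s : Finset (Fin (n + 1))) (a : Fin (n + 1) → A), s.card = m →
      (∀ j, j ∉ s → a j = 0) → Good a := by
    intro m
    induction m using Nat.strong_induction_on with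
    | _ m ih =>
      intro s a hm hs
      by_cases hone : ∃ i, s ⊆ {i}
      · obtain ⟨i, hi⟩ := hone
        have ha : ∀ j, j ≠ i → a j = 0 := by
          intro j hj
          apply hs
          intro hjs
          exact hj (Finset.mem_singleton.1 (hi hjs))
        have hsum : ∀ f : Fin (n + 1) → A, ∑ l, a l * f l = a i * f i := by
          intro f
          rw [Finset.sum_eq_single i]
          · intro l _ hl
            rw [ha l hl, zero_mul]
          · intro h
            exact absurd (Finset.mem_univ i) h
        refine ⟨fun l j => if l = i ∧ j = i then 1 else 0, ?_, ?_⟩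
        · intro j
          rw [hsum]
          by_cases hj : j = i
          · simp [hj]
          · simp [hj, ha j hj]
        · intro x hx l
          unfold N at hx
          rw [hsum] at hx
          by_cases hl : l = i
          · have e : ∑ j, (if l = i ∧ j = i then 1 else 0) * x j = x i := by
              rw [Finset.sum_eq_single i]
              · simp [hl]
              · intro j _ hj
                simp [hj]
              · intro h
                exact absurd (Finset.mem_univ i) h
            rw [e]
            intro j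
            by_cases hj : j = i
            · rw [hj, hx]
            · rw [ha j hj, zero_mul]
          · have e : ∑ j, (if l = i ∧ j = i then 1 else 0) * x j = 0 := by
              apply Finset.sum_eq_zero
              intro j _
              simp [hl]
            rw [e]
            exact (K a).zero_mem
      · have hne : s.Nonempty := by
          rw [Finset.nonempty_iff_ne_empty]
          rintro rfl
          exact hone ⟨0, Finset.empty_subset _⟩
        obtain ⟨i0, hi0⟩ := hne
        have h2 : ∃ i1 ∈ s, i1 ≠ i0 := by
          by_contra hcon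
          push Not at hcon
          exact hone ⟨i0, fun j hj => Finset.mem_singleton.2 (hcon j hj)⟩
        obtain ⟨i1, hi1, hi10⟩ := h2
        have hgood : ∀ i ∈ s, Good (Function.update a i 0) := by
          intro i hi
          refine ih (s.erase i).card ?_ (s.erase i) _ rfl ?_
          · rw [← hm]
            exact Finset.card_erase_lt_of_mem hi
          · intro j hj
            by_cases h : j = i
            · rw [h, Function.update_self]
            · rw [Function.update_of_ne h]
              apply hs
              intro hjs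
              exact hj (Finset.mem_erase.2 ⟨h, hjs⟩)
        obtain ⟨C0, h0, h0'⟩ := step hR hD hfin a _ i0 rfl (hgood i0 hi0)
        obtain ⟨C1, h1, h1'⟩ := step hR hD hfin a _ i1 rfl (hgood i1 hi1)
        refine ⟨fun l j => ∑ m, C1 l m * C0 m j, ?_, ?_⟩
        · intro j
          rw [← h0 j]
          have e : ∀ l, a l * ∑ m, C1 l m * C0 m j = ∑ m, (a l * C1 l m) * C0 m j := by
            intro l
            rw [Finset.mul_sum]
            exact Finset.sum_congr rfl fun m _ => by rw [mul_assoc]
          simp only [e]
          rw [Finset.sum_comm]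
          refine Finset.sum_congr rfl fun m _ => ?_
          rw [← Finset.sum_mul, h1]
        · intro x hx l
          have e1 : ∑ j, (∑ m, C1 l m * C0 m j) * x j = ∑ m, C1 l m * ∑ j, C0 m j * x j := by
            simp only [Finset.sum_mul, Finset.mul_sum]
            rw [Finset.sum_comm]
            exact Finset.sum_congr rfl fun m _ => Finset.sum_congr rfl fun j _ => by rw [mul_assoc]
          have e2 : N a (fun m => ∑ j, C0 m j * x j) := by
            unfold N
            have e3 : ∀ m, a m * ∑ j, C0 m j * x j = ∑ j, (a m * C0 m j) * x j := by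
              intro m
              rw [Finset.mul_sum]
              exact Finset.sum_congr rfl fun j _ => by rw [mul_assoc]
            simp only [e3]
            rw [Finset.sum_comm]
            have e4 : ∀ j, ∑ m, a m * C0 m j * x j = a j * x j := by
              intro j
              rw [← Finset.sum_mul, h0]
            simp only [e4]
            exact hx
          rw [e1]
          have f1 := h1' _ e2 l
          have f0 : ∑ m, C1 l m * ∑ j, C0 m j * x j ∈ K (Function.update a i0 0) :=
            Submodule.sum_mem _ fun m _ => K_left hR _ (h0' x hx m) _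
          intro j
          by_cases hj : j = i0
          · have := f1 j
            rwa [hj, Function.update_of_ne (Ne.symm hi10), ← hj] at this
          · have := f0 j
            rwa [Function.update_of_ne hj] at this
  exact key _ Finset.univ a rfl (fun j hj => absurd (Finset.mem_univ j) hj)

theorem flat_of_good (hR : IsReduced A) (hD : RDist A)
    (h : ∀ (n : ℕ) (a : Fin (n + 1) → A), Good a) (I : Submodule Aᵐᵒᵖ A) : FlatRightIdeal A I := by
  classical
  intro n m x hm hrel
  rcases n with _ | n
  · exact ⟨0, fun j => j.elim0, fun j => j.elim0, fun j => j.elim0, fun i => i.elim0,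
      fun j => j.elim0⟩
  · obtain ⟨C, hC, hCK⟩ := h n m
    obtain ⟨r, hr, hr'⟩ := K_pure hR hD m (fun l => ∑ j, C l j * x j) (fun l => hCK x hrel l)
    refine ⟨n + 1, m, fun l j => (1 - r) * C l j, hm, ?_, ?_⟩
    · intro i
      rw [← hC i]
      refine Finset.sum_congr rfl fun l _ => ?_
      rw [← mul_assoc, mul_sub, mul_one, hr l, sub_zero]
    · intro l
      have e : ∀ j, (1 - r) * C l j * x j = (1 - r) * (C l j * x j) := fun j => by rw [mul_assoc]
      simp only [e]
      rw [← Finset.mul_sum, sub_mul, one_mul, hr' l, sub_self]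

end Pool.Agent.FlatTr
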