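import Mathlib

/-!
# MP_7346ec_al, FlatTr, module A6: stochastic matrices over ordered division rings (helper52)

`τ j := q j * v j`. For `q j ≠ 0`: `q j * y i * v j = Y i j * τ j` with `Y i j := q j * y i * (q j)⁻¹ ≥ 0` (sign rule in an ordered division ring),
`∑ i, Y i j = 1`; for `q j = 0` the term is `0`, put `Y i j := y i`. `|τ i| ≤ ∑ j, Y i j * |τ j|`; sum over `i`: equality
everywhere. Take `i` with `y i ≠ 0` (`∑ y = 1`), so `Y i j > 0` for all `j`: `|∑ j, Y i j * τ j| = ∑ j, Y i j * |τ j|`. If some `τ j > 0` and some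
`τ j' < 0` then the inequality is strict. So all `τ j ≥ 0` or all `τ j ≤ 0`, and the sum is `0`.
-/

set_option autoImplicit false

namespace Pool.Agent.FlatTr

universe v

private theorem A6_conj_nonneg {L : Type v} [DivisionRing L] [LinearOrder L] [IsStrictOrderedRing L]
    {q y : L} (hy : 0 ≤ y) : 0 ≤ q * y * q⁻¹ := by
  rcases le_total 0 q with h | h
  · exact mul_nonneg (mul_nonneg h hy) (inv_nonneg.2 h)
  · exact mul_nonneg_of_nonpos_of_nonpos (mul_nonpos_of_nonpos_of_nonneg h hy) (inv_nonpos.2 h)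

theorem stoch {L : Type v} [DivisionRing L] [LinearOrder L] [IsStrictOrderedRing L] {n : ℕ}
    (q y v : Fin n → L) (hy : ∀ i, 0 ≤ y i) (hy1 : ∑ i, y i = 1) (hv : ∑ j, q j * v j = 0)
    (h : ∀ i, q i * v i = ∑ j, q j * y i * v j) : ∀ j, q j * v j = 0 := by
  classical
  set τ : Fin n → L := fun j => q j * v j with hτ
  set Y : Fin n → Fin n → L := fun i j => if q j = 0 then y i else q j * y i * (q j)⁻¹ with hY
  have hY0 : ∀ i j, 0 ≤ Y i j := by
    intro i j
    simp only [hY]
    split_ifs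
    · exact hy i
    · exact A6_conj_nonneg (hy i)
  have hY1 : ∀ j, ∑ i, Y i j = 1 := by
    intro j
    simp only [hY]
    by_cases hq : q j = 0
    · simp only [if_pos hq]
      exact hy1
    · simp only [if_neg hq]
      rw [← Finset.sum_mul, ← Finset.mul_sum, hy1, mul_one, mul_inv_cancel₀ hq]
  have hYt : ∀ i j, q j * y i * v j = Y i j * τ j := by
    intro i j
    simp only [hY, hτ]
    by_cases hq : q j = 0
    · simp [hq]
    · rw [if_neg hq, mul_assoc (q j * y i), inv_mul_cancel_left₀ hq]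
  have h1 : ∀ i, τ i = ∑ j, Y i j * τ j := by
    intro i
    rw [← Finset.sum_congr rfl fun j _ => hYt i j]
    exact h i
  have h2 : ∀ i, |τ i| ≤ ∑ j, Y i j * |τ j| := by
    intro i
    rw [h1 i]
    refine (Finset.abs_sum_le_sum_abs _ _).trans (le_of_eq ?_)
    refine Finset.sum_congr rfl fun j _ => ?_
    rw [abs_mul, abs_of_nonneg (hY0 i j)]
  have h3 : ∑ i, ∑ j, Y i j * |τ j| = ∑ i, |τ i| := by
    rw [Finset.sum_comm]
    refine Finset.sum_congr rfl fun j _ => ?_
    rw [← Finset.sum_mul, hY1, one_mul]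
  have h4 : ∀ i, |τ i| = ∑ j, Y i j * |τ j| := by
    have := (Finset.sum_eq_sum_iff_of_le fun i _ => h2 i).1 h3.symm
    exact fun i => this i (Finset.mem_univ i)
  obtain ⟨i, hi⟩ : ∃ i, y i ≠ 0 := by
    by_contra hcon
    push Not at hcon
    rw [Finset.sum_eq_zero fun i _ => hcon i] at hy1
    exact zero_ne_one hy1
  have hY2 : ∀ j, 0 < Y i j := by
    intro j
    refine lt_of_le_of_ne (hY0 i j) (Ne.symm ?_)
    simp only [hY]
    by_cases hq : q j = 0
    · rw [if_pos hq]
      exact hi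
    · rw [if_neg hq]
      exact mul_ne_zero (mul_ne_zero hq hi) (inv_ne_zero hq)
  rcases le_total 0 (τ i) with hs | hs
  · have h5 : ∑ j, Y i j * (|τ j| - τ j) = 0 := by
      simp only [mul_sub, Finset.sum_sub_distrib]
      rw [← h4 i, ← h1 i, abs_of_nonneg hs, sub_self]
    have h6 := (Finset.sum_eq_zero_iff_of_nonneg fun j _ =>
      mul_nonneg (hY0 i j) (sub_nonneg.2 (le_abs_self (τ j)))).1 h5
    have h7 : ∀ j, 0 ≤ τ j := by
      intro j
      rcases mul_eq_zero.1 (h6 j (Finset.mem_univ j)) with h8 | h8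
      · exact absurd h8 (hY2 j).ne'
      · rw [sub_eq_zero] at h8
        rw [← h8]
        exact abs_nonneg _
    intro j
    exact (Finset.sum_eq_zero_iff_of_nonneg fun j _ => h7 j).1 hv j (Finset.mem_univ j)
  · have hab : ∀ j, 0 ≤ |τ j| + τ j := by
      intro j
      have := neg_abs_le (τ j)
      first
        | exact neg_le_iff_add_nonneg.1 this
        | exact neg_le_iff_add_nonneg'.1 this
    have h5 : ∑ j, Y i j * (|τ j| + τ j) = 0 := by
      simp only [mul_add, Finset.sum_add_distrib]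
      rw [← h4 i, ← h1 i, abs_of_nonpos hs, neg_add_cancel]
    have h6 := (Finset.sum_eq_zero_iff_of_nonneg fun j _ =>
      mul_nonneg (hY0 i j) (hab j)).1 h5
    have h7 : ∀ j, τ j ≤ 0 := by
      intro j
      rcases mul_eq_zero.1 (h6 j (Finset.mem_univ j)) with h8 | h8
      · exact absurd h8 (hY2 j).ne'
      · rw [add_comm, add_eq_zero_iff_eq_neg] at h8
        rw [h8]
        exact neg_nonpos.2 (abs_nonneg _)
    intro j
    exact (Finset.sum_eq_zero_iff_of_nonpos fun j _ => h7 j).1 hv j (Finset.mem_univ j)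

end Pool.Agent.FlatTr
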