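import Pool.Agent.FlatTr.A5
import Pool.Agent.FlatTr.A6

/-!
# MP_7346ec_al, FlatTr, module A7: orderable residue division rings (helper52)

`exists_e`: `e i ∈ U a i`, `∑ e i = 1`, and at the coatoms `M ∈ S`: `e i ≡ 0` or `1` modulo `M` for exactly one `i` `≡ 1` (as in
`FlatRD.partition_of_finite`; `⨆ U a i = ⊤` by `exists_U`).
`good_ord`: `e` from `exists_e` with `S` = the exceptional coatoms. `s := ∑ e i ^ 2` is outside of every coatom `M`: for `M ∈ S` it is `≡ 1`,
for the others there is an ordered division ring `L` and `f : A → L` with kernel `M`, `f s = ∑ (f (e i)) ^ 2 > 0` as not all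
`f (e i)` are `0`. So `s * s' = 1` for some `s'` (the right ideal `s A` is in no coatom), `y i := e i * e i * s'`,
`a j * e i = a i * d i j`, `C i j := d i j * e i * s'`: `a j * y i = a i * C i j`, `∑ y i = 1`, so `a C = a`.
Apply `local_global` with `K' = K a` (`K_left`, `K_loc`). At `M`: `q j * φ (e i) = q i * φ (d i j)` (`e_j e i - e_i d i j ∈ N a`;
careful with `i = j`), `q j * φ (y i) = q i * φ (C i j)`. If `q i = 0` then `φ (e i) = 0` (take `j` with `q j = 1`), so `φ (C i j) = 0` and
`v i = 0`. If `M ∉ S`: `k` is isomorphic to the image of `f`: the map `g : k → L`, `g (φ x) = f x` is a ring homomorphism (injective);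
apply `stoch` to `g ∘ q`, `g (φ (y i))`, `g ∘ v`: `g (φ (y i)) = (f (e i))² * (f s)⁻¹ ≥ 0`, `q i * v i = ∑ j, q i * φ (C i j) * v j = ∑ j, q j * φ (y i) * v j`.
So `q j * v j = 0` for all `j`, so `v j = 0` if `q j ≠ 0`. If `M ∈ S`: `φ (e i1) = 1` and the others are `0`, `φ (C i j) = 0` for
`i ≠ i1`, so `v i = 0` for `i ≠ i1`, and `q i1 ≠ 0`, so `v i1 = 0` by `∑ q j * v j = 0`.
-/

set_option autoImplicit false

namespace Pool.Agent.FlatTr

open Pool.Agent.FlatRD

universe v

variable {A : Type v} [Ring A]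

/-- the maximal right ideals for which `A / M` is not embeddable in an ordered division ring -/
def NonOrd (A : Type v) [Ring A] : Set (Submodule Aᵐᵒᵖ A) :=
  {M | IsCoatom M ∧ ¬ ∃ (L : Type v) (_ : DivisionRing L) (_ : LinearOrder L)
    (_ : IsStrictOrderedRing L) (f : A →+* L), ∀ x, f x = 0 ↔ x ∈ M}

theorem A7_sup (hD : RDist A) {n : ℕ} (a : Fin (n + 1) → A) : (⨆ i, U a i) = ⊤ := by
  by_contra hne
  have h1 : (1 : A) ∉ ⨆ i, U a i := by
    intro h
    apply hne
    rw [Submodule.eq_top_iff']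
    intro x
    have := mulR h x
    rwa [one_mul] at this
  obtain ⟨M, hM, hle⟩ := exists_coatom _ h1
  obtain ⟨i, u, hu, huM⟩ := exists_U hD a (nice hD hM)
  exact huM (hle (Submodule.mem_iSup_of_mem i hu))

theorem exists_e (hD : RDist A) {n : ℕ} (a : Fin (n + 1) → A)
    (S : Finset (Submodule Aᵐᵒᵖ A)) (hS : ∀ M ∈ S, IsCoatom M) :
    ∃ e : Fin (n + 1) → A, (∀ i, e i ∈ U a i) ∧ ∑ i, e i = 1 ∧
      ∀ M ∈ S, ∃ i1, e i1 - 1 ∈ M ∧ ∀ i, i ≠ i1 → e i ∈ M := by
  classical
  have hW := A7_sup hD a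
  -- a first partition
  obtain ⟨y0, hy0, hsum0⟩ : ∃ y : Fin (n + 1) → A, (∀ i, y i ∈ U a i) ∧ ∑ i, y i = 1 := by
    let T : Submodule Aᵐᵒᵖ A :=
      { carrier := {z | ∃ y : Fin (n + 1) → A, (∀ i, y i ∈ U a i) ∧ ∑ i, y i = z}
        add_mem' := by
          rintro z z' ⟨y, hy, rfl⟩ ⟨y', hy', rfl⟩
          exact ⟨fun i => y i + y' i, fun i => (U a i).add_mem (hy i) (hy' i),
            Finset.sum_add_distrib⟩
        zero_mem' := ⟨fun _ => 0, fun i => (U a i).zero_mem, by simp⟩
        smul_mem' := by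
          rintro c z ⟨y, hy, rfl⟩
          exact ⟨fun i => c • y i, fun i => (U a i).smul_mem c (hy i),
            by rw [← Finset.smul_sum]⟩ }
    have hT : ∀ z, z ∈ T ↔ ∃ y : Fin (n + 1) → A, (∀ i, y i ∈ U a i) ∧ ∑ i, y i = z :=
      fun z => Iff.rfl
    have h1 : (⨆ i, U a i) ≤ T := by
      apply iSup_le
      intro i z hz
      rw [hT]
      refine ⟨fun j => if j = i then z else 0, ?_, by simp⟩
      intro j
      by_cases h : j = i
      · subst h; simpa using hz
      · simp [h]
    rw [hW] at h1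
    exact (hT 1).1 (h1 trivial)
  have hex : ∀ M : Submodule Aᵐᵒᵖ A, ∃ (i : Fin (n + 1)) (w : A), M ∈ S →
      (w ∈ U a i ∧ w - 1 ∈ M ∧ ∀ M' ∈ S, M' ≠ M → w ∈ M') := by
    intro M
    by_cases hMF : M ∈ S
    · have hM := hS M hMF
      have h1 : ∃ i, ¬ U a i ≤ M := by
        by_contra hcon
        push Not at hcon
        have : (⨆ i, U a i) ≤ M := iSup_le hcon
        rw [hW] at this
        exact hM.1 (top_le_iff.1 this)
      obtain ⟨i, hi⟩ := h1
      obtain ⟨g, hg, hgM⟩ := Set.not_subset.1 hi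
      obtain ⟨b, hb⟩ := exists_div hM g hgM
      obtain ⟨e, he1, he2⟩ := crt hD (S.erase M)
        (fun M' hM' => hS M' (Finset.mem_of_mem_erase hM')) hM
        (Finset.notMem_erase _ _)
      refine ⟨i, g * b * e, fun _ => ⟨mulR (mulR hg _) _, ?_, ?_⟩⟩
      · have : g * b * e - 1 = (g * b) * (e - 1) + (g * b - 1) := by noncomm_ring
        rw [this]
        exact M.add_mem ((nice hD hM).left _ _ he1) hb
      · intro M' hM' hne
        exact (nice hD (hS M' hM')).left _ _ (he2 M' (Finset.mem_erase.2 ⟨hne, hM'⟩))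
    · exact ⟨0, 0, fun h => absurd h hMF⟩
  choose idx w hw using hex
  -- the corrections
  let wl : Fin (n + 1) → A := fun l => ∑ M ∈ S, if idx M = l then w M else 0
  have hwl : ∑ l, wl l = ∑ M ∈ S, w M := by
    simp only [wl]
    rw [Finset.sum_comm]
    refine Finset.sum_congr rfl fun M _ => by simp
  have hwlW : ∀ l, wl l ∈ U a l := by
    intro l
    refine (U a l).sum_mem fun M hM => ?_
    by_cases h : idx M = l
    · rw [if_pos h, ← h]; exact (hw M hM).1
    · rw [if_neg h]; exact (U a l).zero_mem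
  refine ⟨fun l => wl l + y0 l * (1 - ∑ M ∈ S, w M), ?_, ?_, ?_⟩
  · exact fun l => (U a l).add_mem (hwlW l) (mulR (hy0 l) _)
  · rw [Finset.sum_add_distrib, hwl, ← Finset.sum_mul, hsum0, one_mul]
    abel
  · intro M hMF
    have hM := hS M hMF
    have hl := (nice hD hM).left
    have h1 : ∑ M' ∈ S, w M' - 1 ∈ M := by
      rw [← Finset.add_sum_erase _ _ hMF]
      have : w M + ∑ x ∈ S.erase M, w x - 1 = (w M - 1) + ∑ x ∈ S.erase M, w x := by abel
      rw [this]
      refine M.add_mem (hw M hMF).2.1 (M.sum_mem fun M' hM' => ?_)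
      have h2 := Finset.mem_erase.1 hM'
      exact (hw M' h2.2).2.2 M hMF (Ne.symm h2.1)
    have h3 : ∀ l, y0 l * (1 - ∑ M ∈ S, w M) ∈ M := by
      intro l
      apply hl
      have : 1 - ∑ M ∈ S, w M = -(∑ M ∈ S, w M - 1) := by abel
      rw [this]
      exact M.neg_mem h1
    have h4 : ∀ l, wl l - (if idx M = l then 1 else 0) ∈ M := by
      intro l
      simp only [wl]
      rw [← Finset.add_sum_erase _ _ hMF]
      have h5 : (if idx M = l then w M else 0) - (if idx M = l then (1 : A) else 0) ∈ M := by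
        by_cases h : idx M = l
        · rw [if_pos h, if_pos h]; exact (hw M hMF).2.1
        · rw [if_neg h, if_neg h, sub_zero]; exact M.zero_mem
      have h6 : ∑ x ∈ S.erase M, (if idx x = l then w x else 0) ∈ M := by
        refine M.sum_mem fun M' hM' => ?_
        have h2 := Finset.mem_erase.1 hM'
        by_cases h : idx M' = l
        · rw [if_pos h]; exact (hw M' h2.2).2.2 M hMF (Ne.symm h2.1)
        · rw [if_neg h]; exact M.zero_mem
      have := M.add_mem h5 h6
      have e : (if idx M = l then w M else 0) - (if idx M = l then (1 : A) else 0) +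
          ∑ x ∈ S.erase M, (if idx x = l then w x else 0) =
          (if idx M = l then w M else 0) + ∑ x ∈ S.erase M, (if idx x = l then w x else 0) -
          (if idx M = l then (1 : A) else 0) := by abel
      rwa [e] at this
    refine ⟨idx M, ?_, fun i hi => ?_⟩
    · have h5 := h4 (idx M)
      rw [if_pos rfl] at h5
      show wl (idx M) + y0 (idx M) * (1 - ∑ M ∈ S, w M) - 1 ∈ M
      have e : wl (idx M) + y0 (idx M) * (1 - ∑ M ∈ S, w M) - 1 =
        (wl (idx M) - 1) + y0 (idx M) * (1 - ∑ M ∈ S, w M) := by abel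
      rw [e]
      exact M.add_mem h5 (h3 _)
    · have h5 := h4 i
      rw [if_neg (Ne.symm hi), sub_zero] at h5
      exact M.add_mem h5 (h3 _)

/-- the sum of the squares is a unit -/
theorem A7_inv (hD : RDist A) {n : ℕ} {e : Fin (n + 1) → A} (he : ∑ i, e i = 1)
    (h : ∀ M : Submodule Aᵐᵒᵖ A, IsCoatom M → M ∉ NonOrd A ∨
      ∃ i1, e i1 - 1 ∈ M ∧ ∀ i, i ≠ i1 → e i ∈ M) : ∃ s' : A, (∑ i, e i * e i) * s' = 1 := by
  classical
  have hs : ∀ M : Submodule Aᵐᵒᵖ A, IsCoatom M → ∑ i, e i * e i ∉ M := by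
    intro M hM hmem
    rcases h M hM with h1 | ⟨i1, h1, h2⟩
    · have h2 : ∃ (L : Type v) (_ : DivisionRing L) (_ : LinearOrder L)
          (_ : IsStrictOrderedRing L) (f : A →+* L), ∀ x, f x = 0 ↔ x ∈ M := by
        by_contra hcon
        exact h1 ⟨hM, hcon⟩
      obtain ⟨L, _, _, _, f, hf⟩ := h2
      have h3 : ∑ i, f (e i) * f (e i) = 0 := by
        rw [← (hf _).2 hmem, map_sum]
        exact Finset.sum_congr rfl fun i _ => (map_mul f _ _).symm
      rw [Finset.sum_eq_zero_iff_of_nonneg (fun i _ => mul_self_nonneg _)] at h3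
      have h4 : ∀ i, f (e i) = 0 := fun i => mul_self_eq_zero.1 (h3 i (Finset.mem_univ i))
      have h5 : f 1 = 0 := by
        rw [← he, map_sum]
        exact Finset.sum_eq_zero fun i _ => h4 i
      exact (nice hD hM).one ((hf 1).1 h5)
    · apply (nice hD hM).one
      have h3 : ∑ i, e i * e i = e i1 * e i1 + ∑ i ∈ Finset.univ.erase i1, e i * e i :=
        (Finset.add_sum_erase _ _ (Finset.mem_univ i1)).symm
      have h4 : ∑ i ∈ Finset.univ.erase i1, e i * e i ∈ M :=
        M.sum_mem fun i hi => mulR (h2 i (Finset.ne_of_mem_erase hi)) _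
      have h5 : e i1 * e i1 ∈ M := by
        have := M.sub_mem hmem h4
        rw [h3, add_sub_cancel_right] at this
        exact this
      have e1 : (1 : A) = e i1 * e i1 - (e i1 * (e i1 - 1) + (e i1 - 1)) := by noncomm_ring
      rw [e1]
      exact M.sub_mem h5 (M.add_mem ((nice hD hM).left _ _ h1) h1)
  have h1 : (1 : A) ∈ Submodule.span Aᵐᵒᵖ {∑ i, e i * e i} := by
    by_contra hcon
    obtain ⟨M, hM, hle⟩ := exists_coatom _ hcon
    exact hs M hM (hle (Submodule.mem_span_singleton_self _))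
  obtain ⟨b, hb⟩ := Submodule.mem_span_singleton.1 h1
  exact ⟨MulOpposite.unop b, hb⟩

/-- the residues -/
theorem A7_res {n : ℕ} (a e : Fin (n + 1) → A) (d : Fin (n + 1) → Fin (n + 1) → A) (s' : A)
    (hd : ∀ i j, a j * e i = a i * d i j) (hs : (∑ i, e i * e i) * s' = 1) {M : Submodule Aᵐᵒᵖ A}
    (h : (∃ (L : Type v) (_ : DivisionRing L) (_ : LinearOrder L)
      (_ : IsStrictOrderedRing L) (f : A →+* L), ∀ x, f x = 0 ↔ x ∈ M) ∨
      ∃ i1, e i1 - 1 ∈ M ∧ ∀ i, i ≠ i1 → e i ∈ M) {k : Type v} [DivisionRing k]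
    (φ : A →+* k) (hφ : ∀ x, φ x = 0 ↔ x ∈ M) (hsur : Function.Surjective φ)
    {q : Fin (n + 1) → k} (hq : ∃ i, q i = 1) (hN : ∀ x, N a x → ∑ j, q j * φ (x j) = 0)
    {v : Fin (n + 1) → k} (hv : ∑ j, q j * v j = 0)
    (hv' : ∀ l, ∑ j, φ (d l j * e l * s') * v j = v l) : v = 0 := by
  classical
  have key : ∀ i j, q j * φ (e i) = q i * φ (d i j) := by
    intro i j
    have h1 : N a (fun l => (if l = j then e i else 0) - (if l = i then d i j else 0)) := by
      unfold N
      simp only [mul_sub, mul_ite, mul_zero, Finset.sum_sub_distrib, Finset.sum_ite_eq',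
        Finset.mem_univ, if_true]
      rw [hd, sub_self]
    have h2 := hN _ h1
    simp only [map_sub, apply_ite φ, map_zero, mul_sub, mul_ite, mul_zero,
      Finset.sum_sub_distrib, Finset.sum_ite_eq', Finset.mem_univ, if_true] at h2
    exact sub_eq_zero.1 h2
  obtain ⟨i0, hi0⟩ := hq
  have key1 : ∀ i, φ (e i) = q i * φ (d i i0) := by
    intro i
    rw [← key, hi0, one_mul]
  have key2 : ∀ i, φ (e i) = 0 → v i = 0 := by
    intro i hi
    rw [← hv' i]
    refine Finset.sum_eq_zero fun j _ => ?_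
    rw [map_mul, map_mul, hi, mul_zero, zero_mul, zero_mul]
  have key3 : ∀ i, q i = 0 → v i = 0 := by
    intro i hi
    apply key2
    rw [key1, hi, zero_mul]
  have key4 : ∀ i, q i * v i = 0 → v i = 0 := by
    intro i hi
    rcases mul_eq_zero.1 hi with h | h
    · exact key3 i h
    · exact h
  rcases h with ⟨L, _, _, _, f, hf⟩ | ⟨i1, h1, h2⟩
  · have hker : RingHom.ker φ ≤ RingHom.ker f := by
      intro x hx
      rw [RingHom.mem_ker] at hx ⊢
      rw [hf, ← hφ, hx]
    let g : k →+* L := φ.liftOfSurjective hsur ⟨f, hker⟩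
    have hg : ∀ x, g (φ x) = f x := fun x => RingHom.liftOfRightInverse_comp_apply φ _ _ ⟨f, hker⟩ x
    have hginj : Function.Injective g := g.injective
    have hs1 : f (∑ i, e i * e i) * f s' = 1 := by rw [← map_mul, hs, map_one]
    have hs0 : 0 ≤ f (∑ i, e i * e i) := by
      rw [map_sum]
      refine Finset.sum_nonneg fun i _ => ?_
      rw [map_mul]
      exact mul_self_nonneg _
    have hs2 : 0 ≤ f s' := by
      by_contra hcon
      push Not at hcon
      have h3 := mul_nonpos_of_nonneg_of_nonpos hs0 hcon.le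
      rw [hs1] at h3
      exact absurd h3 (not_le.2 zero_lt_one)
    have h3 := stoch (fun j => g (q j)) (fun i => f (e i * e i * s')) (fun j => g (v j))
      (fun i => by
        show 0 ≤ f (e i * e i * s')
        rw [map_mul, map_mul]
        exact mul_nonneg (mul_self_nonneg _) hs2)
      (by
        show ∑ i, f (e i * e i * s') = 1
        rw [← map_sum, ← Finset.sum_mul, hs, map_one])
      (by
        show ∑ j, g (q j) * g (v j) = 0
        have h4 : ∑ j, g (q j) * g (v j) = g (∑ j, q j * v j) := by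
          rw [map_sum]
          exact Finset.sum_congr rfl fun j _ => (map_mul g _ _).symm
        rw [h4, hv, map_zero])
      (fun i => by
        show g (q i) * g (v i) = ∑ j, g (q j) * f (e i * e i * s') * g (v j)
        rw [← map_mul, ← hv' i, Finset.mul_sum, map_sum]
        refine Finset.sum_congr rfl fun j _ => ?_
        rw [← hg, ← map_mul, ← map_mul]
        congr 1
        have h4 : q i * (φ (d i j * e i * s') * v j) = q i * φ (d i j) * φ (e i) * φ s' * v j := by
          rw [map_mul, map_mul]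
          noncomm_ring
        rw [h4, ← key i j, map_mul, map_mul]
        noncomm_ring)
    funext j
    apply key4
    apply hginj
    rw [map_mul, map_zero]
    exact h3 j
  · have h3 : φ (e i1) = 1 := by
      have := (hφ _).2 h1
      rwa [map_sub, map_one, sub_eq_zero] at this
    have h4 : ∀ i, i ≠ i1 → v i = 0 := fun i hi => key2 i ((hφ _).2 (h2 i hi))
    have h5 : q i1 * v i1 = 0 := by
      rw [← hv]
      symm
      refine Finset.sum_eq_single i1 (fun j _ hj => ?_) (fun hj => absurd (Finset.mem_univ _) hj)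
      rw [h4 j hj, mul_zero]
    funext j
    by_cases hj : j = i1
    · rw [hj]
      exact key4 i1 h5
    · exact h4 j hj

theorem good_ord (hR : IsReduced A) (hD : RDist A) (hfin : (NonOrd A).Finite) {n : ℕ}
    (a : Fin (n + 1) → A) : Good a := by
  classical
  obtain ⟨e, he, he1, heS⟩ := exists_e hD a hfin.toFinset
    (fun M hM => ((Set.Finite.mem_toFinset hfin).1 hM).1)
  have hM' : ∀ M : Submodule Aᵐᵒᵖ A, IsCoatom M → M ∉ NonOrd A ∨
      ∃ i1, e i1 - 1 ∈ M ∧ ∀ i, i ≠ i1 → e i ∈ M := by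
    intro M _
    by_cases h : M ∈ NonOrd A
    · exact Or.inr (heS M ((Set.Finite.mem_toFinset hfin).2 h))
    · exact Or.inl h
  obtain ⟨s', hs'⟩ := A7_inv hD he1 hM'
  have hd : ∀ i j, ∃ c, a j * e i = a i * c := fun i j => he i j
  choose d hd using hd
  refine local_global hR hD a (K a) le_rfl (fun b z hz => K_left hR a hz b)
    (fun M hM hK z hz => K_loc hR hD a (nice hD hM) hK hz)
    (fun l j => d l j * e l * s') ?_ ?_
  · intro j
    have h1 : ∀ l, a l * (d l j * e l * s') = a j * (e l * e l * s') := by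
      intro l
      rw [← mul_assoc, ← mul_assoc, ← hd]
      noncomm_ring
    rw [Finset.sum_congr rfl fun l _ => h1 l, ← Finset.mul_sum, ← Finset.sum_mul, hs', mul_one]
  · intro M hM _ k _ φ hφ hsur q hq hN v hv hv'
    refine A7_res a e d s' hd hs' ?_ φ hφ hsur hq hN hv hv'
    rcases hM' M hM with h | h
    · left
      by_contra hcon
      exact h ⟨hM, hcon⟩
    · exact Or.inr h

end Pool.Agent.FlatTr
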